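import Pool.Agent.V11111.GF.Main

/-!
# Growth-fragmentation semigroups: definitions and the counterexample
-/

open Filter Topology MeasureTheory Set
open scoped ENNReal

namespace Pool.Agent.V11111.GF

/-- Admissible data: growth rate `r`, fragmentation rate `a`, fragmentation kernel `b`. -/
structure IsData (r a : ℝ → ℝ) (b : ℝ → ℝ → ℝ) : Prop where
  r_pos : ∀ x, 0 < x → 0 < r x
  r_loc : LocallyIntegrableOn (fun x => 1 / r x) (Ioi 0)
  r_zero : ∫⁻ x in Ioc (0:ℝ) 1, ENNReal.ofReal (1 / r x) = ∞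
  r_infty : ∫⁻ x in Ioi (1:ℝ), ENNReal.ofReal (1 / r x) = ∞
  a_meas : Measurable a
  a_nonneg : ∀ x, 0 < x → 0 ≤ a x
  b_meas : Measurable (Function.uncurry b)
  b_nonneg : ∀ x y, 0 < x → x < y → 0 ≤ b x y
  b_mass : ∀ y, 0 < y → ∫⁻ x in Ioo 0 y, ENNReal.ofReal (x * b x y) ≤ ENNReal.ofReal y

/-- `X y t` is the characteristic: `X y t ∈ (0, y]` and the time from `X y t` to `y` is `t`. -/
def IsFlow (r : ℝ → ℝ) (X : ℝ → ℝ → ℝ) : Prop :=
  ∀ y, 0 < y → ∀ t, 0 ≤ t → 0 < X y t ∧ X y t ≤ y ∧ ∫ τ in (X y t)..y, 1 / r τ = t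

/-- `U t` is given by the explicit transport formula. -/
def IsTransport (r a : ℝ → ℝ) (X : ℝ → ℝ → ℝ) (U : ℝ → X1 →L[ℂ] X1) : Prop :=
  ∀ t, 0 ≤ t → ∀ f : X1, ∀ᵐ y ∂mu1, DifferentiableAt ℝ (fun z => X z t) y ∧
    U t f y = ((Real.exp (-∫ p in (X y t)..y, a p / r p) * deriv (fun z => X z t) y : ℝ) : ℂ) *
      f (X y t)

/-- `(V t)_{t ≥ 0}` is a strongly continuous semigroup. -/
structure IsC0 (V : ℝ → X1 →L[ℂ] X1) : Prop where
  zero : V 0 = 1
  add : ∀ s t, 0 ≤ s → 0 ≤ t → V (s + t) = V s * V t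
  cont : ∀ f, ContinuousOn (fun t => V t f) (Ici 0)

/-- `V t` maps nonnegative functions to nonnegative functions for `t ≥ 0`. -/
def IsPositive (V : ℝ → X1 →L[ℂ] X1) : Prop := ∀ t, 0 ≤ t → ∀ f, Nn f → Nn (V t f)

/-- `k = B f`, that is, `k x = ∫_x^∞ a(y) b(x, y) f(y) dy`. -/
def IsFrag (a : ℝ → ℝ) (b : ℝ → ℝ → ℝ) (f k : X1) : Prop :=
  ∀ᵐ x ∂mu1, IntegrableOn (fun y => ((a y * b x y : ℝ) : ℂ) * f y) (Ioi x) ∧
    k x = ∫ y in Ioi x, ((a y * b x y : ℝ) : ℂ) * f y

/-- The generator of `V` is `T₀ + B` on the domain of the generator `T₀` of `U`. -/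
structure IsGenerated (a : ℝ → ℝ) (b : ℝ → ℝ → ℝ) (U V : ℝ → X1 →L[ℂ] X1) : Prop where
  dom : ∀ f g₀, Gen U f g₀ → ∃ k, IsFrag a b f k
  gen : ∀ f g, Gen V f g ↔ ∃ g₀ k, Gen U f g₀ ∧ IsFrag a b f k ∧ g = g₀ + k

/-- essential spectrum: `z - T` is not invertible modulo compact operators -/
def essSpectrum (T : X1 →L[ℂ] X1) : Set ℂ := {z | ¬ EssInv (z • (1 : X1 →L[ℂ] X1) - T)}

/-- essential spectral radius -/
noncomputable def essRadius (T : X1 →L[ℂ] X1) : ℝ≥0∞ := ⨆ z ∈ essSpectrum T, ‖z‖ₑ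

/-- type (growth bound) -/
noncomputable def growthBound (V : ℝ → X1 →L[ℂ] X1) : EReal :=
  ⨅ (w : ℝ) (_ : ∃ M : ℝ, ∀ t, 0 ≤ t → ‖V t‖ ≤ M * Real.exp (w * t)), (w : EReal)

/-- essential type -/
noncomputable def essType (V : ℝ → X1 →L[ℂ] X1) : EReal :=
  ⨅ (w : ℝ) (_ : ∀ t, 0 < t → essRadius (V t) ≤ ENNReal.ofReal (Real.exp (w * t))), (w : EReal)

/-! ### verification -/

lemma phi_meas : Measurable phi := by
  unfold phi
  exact (measurable_const.div (measurable_id.pow_const 2)).indicator measurableSet_Ico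

lemma bb_meas : Measurable (Function.uncurry bb) := by
  have : Function.uncurry bb = fun p : ℝ × ℝ => if p.2 < Real.exp 1 then 2 / p.2
      else p.2 * phi p.1 := by
    funext p; rfl
  rw [this]
  exact Measurable.ite (measurableSet_lt measurable_snd measurable_const)
    (measurable_const.div measurable_snd) (measurable_snd.mul (phi_meas.comp measurable_fst))

lemma bb_nonneg (x y : ℝ) (hy : 0 < y) : 0 ≤ bb x y := by
  unfold bb
  split_ifs
  · positivity
  · exact mul_nonneg hy.le (phi_nonneg x)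

lemma bb_mass {y : ℝ} (hy : 0 < y) :
    ∫⁻ x in Ioo 0 y, ENNReal.ofReal (x * bb x y) = ENNReal.ofReal y := by
  by_cases h : y < Real.exp 1
  · have e : ∀ x, x * bb x y = x * (2 / y) := by
      intro x; rw [bb, if_pos h]
    simp only [e]
    have hc : Continuous (fun x : ℝ => x * (2 / y)) := by fun_prop
    have hint : IntegrableOn (fun x : ℝ => x * (2 / y)) (Ioo 0 y) :=
      (hc.integrableOn_Icc (a := 0) (b := y)).mono_set Ioo_subset_Icc_self
    rw [← ofReal_integral_eq_lintegral_ofReal hint]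
    · congr 1
      rw [← integral_Ioc_eq_integral_Ioo, ← intervalIntegral.integral_of_le hy.le,
        intervalIntegral.integral_mul_const, integral_id]
      field_simp
      ring
    · filter_upwards [ae_restrict_mem measurableSet_Ioo] with x hx
      have := hx.1
      positivity
  · have h' : Real.exp 1 ≤ y := not_lt.1 h
    have e : ∀ x ∈ Ioo 0 y, ENNReal.ofReal (x * bb x y) =
        (Ico (1:ℝ) (Real.exp 1)).indicator (fun x => ENNReal.ofReal (y * (1 / x))) x := by
      intro x hx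
      rw [bb, if_neg h, phi]
      by_cases hx1 : x ∈ Ico (1:ℝ) (Real.exp 1)
      · rw [indicator_of_mem hx1, indicator_of_mem hx1]
        congr 1
        have := hx.1.ne'
        field_simp
      · rw [indicator_of_notMem hx1, indicator_of_notMem hx1]; simp
    rw [setLIntegral_congr_fun measurableSet_Ioo e,
      setLIntegral_indicator measurableSet_Ico]
    have e2 : Ico (1:ℝ) (Real.exp 1) ∩ Ioo 0 y = Ico 1 (Real.exp 1) := by
      apply inter_eq_left.2
      intro x hx
      exact ⟨one_pos.trans_le hx.1, hx.2.trans_le h'⟩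
    rw [e2]
    have hcont : ContinuousOn (fun x : ℝ => y * (1 / x)) (Icc 1 (Real.exp 1)) :=
      continuousOn_const.mul (continuousOn_const.div continuousOn_id
        fun x hx => (one_pos.trans_le hx.1).ne')
    have hint : IntegrableOn (fun x : ℝ => y * (1 / x)) (Ico 1 (Real.exp 1)) :=
      (hcont.integrableOn_Icc).mono_set Ico_subset_Icc_self
    rw [← ofReal_integral_eq_lintegral_ofReal hint]
    · congr 1
      rw [integral_Ico_eq_integral_Ioc, ← intervalIntegral.integral_of_le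
        (Real.one_le_exp zero_le_one), intervalIntegral.integral_const_mul,
        integral_one_div_of_pos one_pos (Real.exp_pos 1)]
      simp
    · filter_upwards [ae_restrict_mem measurableSet_Ico] with x hx
      have : 0 < x := one_pos.trans_le hx.1
      positivity

lemma isData : IsData rr aa bb where
  r_pos := fun x hx => rr_pos hx
  r_loc := inv_rr_cont.locallyIntegrableOn measurableSet_Ioi
  r_zero := lint_zero_one
  r_infty := lint_one_infty
  a_meas := aa_meas
  a_nonneg := fun x _ => aa_nonneg x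
  b_meas := bb_meas
  b_nonneg := fun x y hx hxy => bb_nonneg x y (hx.trans hxy)
  b_mass := fun y hy => (bb_mass hy).le

/-- the characteristics -/
noncomputable def XX (y t : ℝ) : ℝ := pp (ss y - t)

lemma XX_le {y t : ℝ} (hy : 0 < y) (ht : 0 ≤ t) : XX y t ≤ y := by
  unfold XX
  have : pp (ss y - t) ≤ pp (ss y) := pp_mono.monotone (by linarith)
  rwa [pp_ss hy] at this

lemma XX_pos (y t : ℝ) : 0 < XX y t := pp_pos _

lemma isFlow : IsFlow rr XX := by
  intro y hy t ht
  refine ⟨XX_pos _ _, XX_le hy ht, ?_⟩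
  rw [int_inv_rr (XX_pos _ _) (XX_le hy ht), XX, ss_pp]
  ring

lemma isTransport : IsTransport rr aa XX Ux := by
  intro t ht f
  filter_upwards [Ux_ae t f, ae_mu1] with y e hy
  have hd : HasDerivAt (fun z => XX z t) (rr (pp (ss y - t)) * (1 / rr y)) y :=
    (hasDeriv_pp (ss y - t)).comp y ((hasDeriv_ss hy).sub_const t)
  refine ⟨hd.differentiableAt, ?_⟩
  rw [hd.deriv, e, int_aa_rr (XX_pos _ _) (XX_le hy ht), XX, ss_pp]
  congr 3
  ring

/-- the growth-fragmentation semigroup -/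
noncomputable def VX (t : ℝ) : X1 →L[ℂ] X1 := Vop grpX BX t

lemma isC0_U : IsC0 Ux where
  zero := grpX.zero
  add := fun s t _ _ => grpX.add s t
  cont := fun f => (grpX.cont f).continuousOn

lemma isC0_V : IsC0 VX where
  zero := Vop_zero grpX BX
  add := fun _ _ hs ht => Vop_add grpX BX ht hs
  cont := fun f => (Vop_cont grpX BX f).continuousOn

lemma isPos_V : IsPositive VX := by
  intro t _ f hf
  rw [← pz_iff]
  exact Vop_pos (tf mu1) grpX BX (fun t f hf => (pz_iff _).2 (Ux_Nn t ((pz_iff _).1 hf)))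
    (fun f hf => (pz_iff _).2 (BX_Nn ((pz_iff _).1 hf))) ((pz_iff _).2 hf) t

lemma frag_iff (f k : X1) : IsFrag aa bb f k ↔ k = BX f := by
  constructor
  · intro h
    apply Lp.ext
    filter_upwards [h, BX_ae f] with x h1 h2
    rw [h1.2, h2.2]
  · rintro rfl
    exact BX_ae f

lemma isGenerated : IsGenerated aa bb Ux VX where
  dom := fun f _ _ => ⟨BX f, (frag_iff f _).2 rfl⟩
  gen := by
    intro f g
    have h := gen_iff grpX BX f g
    constructor
    · intro h1
      exact ⟨g - BX f, BX f, h.1 h1, (frag_iff f _).2 rfl, by abel⟩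
    · rintro ⟨g₀, k, h1, h2, h3⟩
      rw [frag_iff] at h2
      apply h.2
      rw [h3, h2]
      simpa using h1

lemma ess_le {t : ℝ} (ht : 0 < t) : essRadius (VX t) ≤ 1 := by
  unfold essRadius
  refine iSup₂_le fun z hz => ?_
  have h1 : ‖z‖ ≤ 1 := by
    by_contra hcon
    apply hz
    have h2 : z ∉ spectrum ℂ (Ux t) := by
      intro h3
      exact hcon (spec_le_one grpX (Real.exp 1) (Real.exp_pos 1).le (fun t ht => Ux_bd' ht) ht.le h3)
    have h4 := essInv_of (Ux t) (VX t - Ux t)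
      (Vop_sub_cpt grpX (ellY.comp Phi) (Psi betaY) ht) z h2
    rwa [add_sub_cancel] at h4
  rw [← ofReal_norm]
  exact ENNReal.ofReal_le_one.2 h1

lemma essType_le : essType VX ≤ 0 := by
  unfold essType
  have := iInf₂_le (f := fun (w : ℝ)
    (_ : ∀ t, 0 < t → essRadius (VX t) ≤ ENNReal.ofReal (Real.exp (w * t))) => (w : EReal)) 0
    (fun t ht => by rw [zero_mul, Real.exp_zero, ENNReal.ofReal_one]; exact ess_le ht)
  simpa using this

lemma growth_ge : 1 ≤ growthBound VX := by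
  unfold growthBound
  refine le_iInf₂ fun w hw => ?_
  obtain ⟨M, hM⟩ := hw
  exact_mod_cast growth_lb grpX BX EX EX_lim (Psi betaY) EX_ne M w hM

theorem main : ∃ (r a : ℝ → ℝ) (b X : ℝ → ℝ → ℝ) (U V : ℝ → X1 →L[ℂ] X1),
    IsData r a b ∧ Continuous r ∧ (∀ x, a x ≤ 2) ∧
    (∀ y, 0 < y → ∫⁻ x in Ioo 0 y, ENNReal.ofReal (x * b x y) = ENNReal.ofReal y) ∧
    IsFlow r X ∧ IsTransport r a X U ∧ IsC0 U ∧ IsPositive U ∧
    IsC0 V ∧ IsPositive V ∧ IsGenerated a b U V ∧
    (∀ t, 0 < t → essRadius (V t) ≤ 1) ∧ essType V ≤ 0 ∧ 1 ≤ growthBound V ∧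
    essType V < growthBound V :=
  ⟨rr, aa, bb, XX, Ux, VX, isData, rr_cont, aa_le, fun _ hy => bb_mass hy, isFlow, isTransport,
    isC0_U, fun t _ _ hf => Ux_Nn t hf, isC0_V, isPos_V, isGenerated, fun _ ht => ess_le ht,
    essType_le, growth_ge, essType_le.trans_lt (lt_of_lt_of_le (by norm_num) growth_ge)⟩

end Pool.Agent.V11111.GF
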