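import Mathlib

/-!
# Bounded perturbations of strongly continuous groups
-/

open Filter Topology MeasureTheory Set
open scoped BoundedContinuousFunction

namespace Pool.Agent.V11111.GF

section Abs

variable {X : Type*} [NormedAddCommGroup X] [NormedSpace ℂ X]

/-- a strongly continuous group with `‖U t‖ ≤ exp |t|` -/
structure Grp (U : ℝ → X →L[ℂ] X) : Prop where
  zero : U 0 = 1
  add : ∀ s t, U (s + t) = U s * U t
  cont : ∀ f, Continuous (fun t => U t f)
  bd : ∀ t, ‖U t‖ ≤ Real.exp |t|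

variable {U : ℝ → X →L[ℂ] X}

lemma Grp.jc (hU : Grp U) {c : ℝ → X} (hc : Continuous c) : Continuous (fun t => U t (c t)) := by
  rw [continuous_iff_continuousAt]
  intro t₀
  have h1 : Tendsto (fun t => U t (c t - c t₀)) (𝓝 t₀) (𝓝 0) := by
    have h2 : Tendsto (fun t => Real.exp |t| * ‖c t - c t₀‖) (𝓝 t₀) (𝓝 0) := by
      have : Continuous (fun t => Real.exp |t| * ‖c t - c t₀‖) := by fun_prop
      have := this.tendsto t₀
      simpa using this
    refine squeeze_zero_norm (fun t => ?_) h2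
    exact ((U t).le_opNorm _).trans (mul_le_mul_of_nonneg_right (hU.bd t) (norm_nonneg _))
  have h3 := (hU.cont (c t₀)).tendsto t₀
  have h4 := h1.add h3
  rw [zero_add] at h4
  refine h4.congr fun t => ?_
  rw [← map_add, sub_add_cancel]

lemma Grp.comp (hU : Grp U) (s t : ℝ) (f : X) : U s (U t f) = U (s + t) f := by
  rw [hU.add]; rfl

lemma Grp.neg_comp (hU : Grp U) (t : ℝ) (f : X) : U t (U (-t) f) = f := by
  rw [hU.comp, add_neg_cancel, hU.zero]; rfl

/-- rescaled group -/
noncomputable def Sc (U : ℝ → X →L[ℂ] X) (m : ℝ) (t : ℝ) : X →L[ℂ] X :=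
  ((Real.exp (-m * t) : ℝ) : ℂ) • U t

lemma Sc_apply (m t : ℝ) (f : X) : Sc U m t f = ((Real.exp (-m * t) : ℝ) : ℂ) • U t f := rfl

lemma Sc_zero (hU : Grp U) (m : ℝ) (f : X) : Sc U m 0 f = f := by
  rw [Sc_apply, hU.zero]; simp

lemma Sc_comp (hU : Grp U) (m s t : ℝ) (f : X) : Sc U m s (Sc U m t f) = Sc U m (s + t) f := by
  rw [Sc_apply, Sc_apply, Sc_apply, map_smul, hU.comp, smul_smul, ← Complex.ofReal_mul,
    ← Real.exp_add]
  congr 3; ring

lemma Sc_jc (hU : Grp U) (m : ℝ) {c : ℝ → X} (hc : Continuous c) :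
    Continuous (fun t => Sc U m t (c t)) := by
  have h1 := hU.jc hc
  have h2 : Continuous (fun t : ℝ => ((Real.exp (-m * t) : ℝ) : ℂ)) := by fun_prop
  exact h2.smul h1

lemma Sc_bd (hU : Grp U) (m : ℝ) {t : ℝ} (ht : 0 ≤ t) (f : X) :
    ‖Sc U m t f‖ ≤ Real.exp (-(m - 1) * t) * ‖f‖ := by
  rw [Sc_apply, norm_smul, Complex.norm_real, Real.norm_of_nonneg (Real.exp_pos _).le]
  have h1 : ‖U t f‖ ≤ Real.exp t * ‖f‖ := by
    have := hU.bd t
    rw [abs_of_nonneg ht] at this
    exact ((U t).le_opNorm f).trans (mul_le_mul_of_nonneg_right this (norm_nonneg _))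
  calc Real.exp (-m * t) * ‖U t f‖ ≤ Real.exp (-m * t) * (Real.exp t * ‖f‖) :=
        mul_le_mul_of_nonneg_left h1 (Real.exp_pos _).le
    _ = Real.exp (-(m - 1) * t) * ‖f‖ := by
        rw [← mul_assoc, ← Real.exp_add]; congr 2; ring

/-- inner integral -/
noncomputable def Iin (U : ℝ → X →L[ℂ] X) (B : X →L[ℂ] X) (m : ℝ) (u : ℝ → X) (t : ℝ) : X :=
  ∫ s in (0:ℝ)..t, Sc U m (-s) (B (u s))

lemma cont_integrand (hU : Grp U) (B : X →L[ℂ] X) (m : ℝ) {u : ℝ → X} (hu : Continuous u) :
    Continuous (fun s => Sc U m (-s) (B (u s))) := by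
  have h1 : Continuous (fun s => Sc U m s (B (u (-s)))) :=
    Sc_jc hU m (B.continuous.comp (hu.comp continuous_neg))
  have h2 := h1.comp continuous_neg
  simpa [Function.comp_def] using h2

variable [CompleteSpace X]

lemma cont_Iin (hU : Grp U) (B : X →L[ℂ] X) (m : ℝ) {u : ℝ → X} (hu : Continuous u) :
    Continuous (Iin U B m u) := by
  unfold Iin
  exact intervalIntegral.continuous_primitive
    (fun a b => (cont_integrand hU B m hu).intervalIntegrable a b) 0

lemma exp_int {ν τ : ℝ} (hν : 0 < ν) :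
    ∫ s in (0:ℝ)..τ, Real.exp (-ν * (τ - s)) = (1 - Real.exp (-ν * τ)) / ν := by
  have h : ∀ s ∈ uIcc 0 τ, HasDerivAt (fun s => Real.exp (-ν * (τ - s)) / ν)
      (Real.exp (-ν * (τ - s))) s := by
    intro s _
    have h1 : HasDerivAt (fun s : ℝ => -ν * (τ - s)) ν s := by
      have := ((hasDerivAt_id s).const_sub τ).const_mul (-ν)
      simpa using this
    have h2 := (h1.exp).div_const ν
    rw [mul_div_assoc, div_self hν.ne', mul_one] at h2
    exact h2
  rw [intervalIntegral.integral_eq_sub_of_hasDerivAt h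
    ((by fun_prop : Continuous (fun s => Real.exp (-ν * (τ - s)))).intervalIntegrable _ _)]
  simp
  ring

lemma Kbd (hU : Grp U) (B : X →L[ℂ] X) (m : ℝ) (hm : 1 < m) {u : ℝ → X} (hu : Continuous u)
    {C : ℝ} (hC : ∀ s, ‖u s‖ ≤ C) {t : ℝ} (ht : 0 ≤ t) :
    ‖Sc U m t (Iin U B m u t)‖ ≤ ‖B‖ / (m - 1) * C := by
  have hC0 : 0 ≤ C := (norm_nonneg _).trans (hC 0)
  have hint := (cont_integrand hU B m hu).intervalIntegrable (μ := volume) 0 t
  have e1 : Sc U m t (Iin U B m u t) = ∫ s in (0:ℝ)..t, Sc U m (t - s) (B (u s)) := by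
    unfold Iin
    rw [← ContinuousLinearMap.intervalIntegral_comp_comm (Sc U m t) hint]
    congr 1; funext s
    rw [Sc_comp hU, sub_eq_add_neg]
  rw [e1]
  have h2 : ‖∫ s in (0:ℝ)..t, Sc U m (t - s) (B (u s))‖ ≤
      ∫ s in (0:ℝ)..t, Real.exp (-(m - 1) * (t - s)) * (‖B‖ * C) := by
    apply intervalIntegral.norm_integral_le_of_norm_le ht
    · refine Eventually.of_forall fun s hs => ?_
      refine (Sc_bd hU m (sub_nonneg.2 hs.2) _).trans ?_
      refine mul_le_mul_of_nonneg_left ?_ (Real.exp_pos _).le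
      exact (B.le_opNorm _).trans (mul_le_mul_of_nonneg_left (hC s) (norm_nonneg _))
    · exact (by fun_prop : Continuous
        (fun s => Real.exp (-(m - 1) * (t - s)) * (‖B‖ * C))).intervalIntegrable _ _
  refine h2.trans ?_
  rw [intervalIntegral.integral_mul_const, exp_int (by linarith)]
  have h3 : (1 - Real.exp (-(m - 1) * t)) / (m - 1) ≤ 1 / (m - 1) := by
    apply div_le_div_of_nonneg_right _ (by linarith)
    linarith [Real.exp_pos (-(m - 1) * t)]
  calc (1 - Real.exp (-(m - 1) * t)) / (m - 1) * (‖B‖ * C) ≤ 1 / (m - 1) * (‖B‖ * C) :=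
        mul_le_mul_of_nonneg_right h3 (by positivity)
    _ = ‖B‖ / (m - 1) * C := by ring

/-- the Volterra operator on bounded continuous functions -/
noncomputable def Kop (hU : Grp U) (B : X →L[ℂ] X) (m : ℝ) (hm : 1 < m) :
    (ℝ →ᵇ X) →L[ℂ] (ℝ →ᵇ X) :=
  LinearMap.mkContinuous
    { toFun := fun u => BoundedContinuousFunction.ofNormedAddCommGroup
        (fun t => Sc U m (max t 0) (Iin U B m u (max t 0)))
        (by
          have h1 := Sc_jc hU m (cont_Iin hU B m u.continuous)
          exact h1.comp (continuous_id.max continuous_const))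
        (‖B‖ / (m - 1) * ‖u‖)
        (fun t => Kbd hU B m hm u.continuous (fun s => u.norm_coe_le_norm s) (le_max_right _ _))
      map_add' := by
        intro u v
        ext t
        simp only [BoundedContinuousFunction.coe_ofNormedAddCommGroup,
          BoundedContinuousFunction.coe_add, Pi.add_apply]
        rw [← map_add]
        congr 1
        unfold Iin
        rw [← intervalIntegral.integral_add
          ((cont_integrand hU B m u.continuous).intervalIntegrable _ _)
          ((cont_integrand hU B m v.continuous).intervalIntegrable _ _)]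
        congr 1; funext s
        rw [← map_add, ← map_add]; rfl
      map_smul' := by
        intro c u
        ext t
        simp only [BoundedContinuousFunction.coe_ofNormedAddCommGroup,
          BoundedContinuousFunction.coe_smul, RingHom.id_apply]
        rw [← map_smul]
        congr 1
        unfold Iin
        rw [← intervalIntegral.integral_smul]
        congr 1; funext s
        rw [← map_smul, ← map_smul] }
    (‖B‖ / (m - 1))
    (by
      intro u
      refine (BoundedContinuousFunction.norm_le ?_).2 fun t => ?_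
      · have : 0 ≤ ‖B‖ / (m - 1) := div_nonneg (norm_nonneg _) (by linarith)
        positivity
      · exact Kbd hU B m hm u.continuous (fun s => u.norm_coe_le_norm s) (le_max_right _ _))

lemma Kop_apply (hU : Grp U) (B : X →L[ℂ] X) (m : ℝ) (hm : 1 < m) (u : ℝ →ᵇ X) (t : ℝ) :
    Kop hU B m hm u t = Sc U m (max t 0) (Iin U B m u (max t 0)) := rfl

lemma Kop_norm (hU : Grp U) (B : X →L[ℂ] X) (m : ℝ) (hm : 1 < m) :
    ‖Kop hU B m hm‖ ≤ ‖B‖ / (m - 1) :=
  LinearMap.mkContinuous_norm_le _ (div_nonneg (norm_nonneg _) (by linarith)) _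

/-- the free evolution -/
noncomputable def Jop (hU : Grp U) (m : ℝ) (hm : 1 < m) : X →L[ℂ] (ℝ →ᵇ X) :=
  LinearMap.mkContinuous
    { toFun := fun f => BoundedContinuousFunction.ofNormedAddCommGroup
        (fun t => Sc U m (max t 0) f)
        (by
          have h1 := Sc_jc hU m (continuous_const (y := f))
          exact h1.comp (continuous_id.max continuous_const))
        ‖f‖
        (fun t => by
          refine (Sc_bd hU m (le_max_right _ _) f).trans ?_
          have : Real.exp (-(m - 1) * max t 0) ≤ 1 := by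
            rw [Real.exp_le_one_iff]
            have := mul_nonneg (by linarith : (0:ℝ) ≤ m - 1) (le_max_right t 0)
            linarith
          nlinarith [norm_nonneg f])
      map_add' := by
        intro u v
        ext t
        simp
      map_smul' := by
        intro c u
        ext t
        simp }
    1
    (by
      intro f
      refine (BoundedContinuousFunction.norm_le (by positivity)).2 fun t => ?_
      rw [one_mul]
      refine (Sc_bd hU m (le_max_right _ _) f).trans ?_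
      have : Real.exp (-(m - 1) * max t 0) ≤ 1 := by
        rw [Real.exp_le_one_iff]
        have := mul_nonneg (by linarith : (0:ℝ) ≤ m - 1) (le_max_right t 0)
        linarith
      nlinarith [norm_nonneg f])

lemma Jop_apply (hU : Grp U) (m : ℝ) (hm : 1 < m) (f : X) (t : ℝ) :
    Jop hU m hm f t = Sc U m (max t 0) f := rfl

/-- the exponent -/
noncomputable def mu (B : X →L[ℂ] X) : ℝ := 2 + ‖B‖

omit [CompleteSpace X] in
lemma mu_gt (B : X →L[ℂ] X) : 1 < mu B := by unfold mu; linarith [norm_nonneg B]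

lemma Kop_lt (hU : Grp U) (B : X →L[ℂ] X) : ‖Kop hU B (mu B) (mu_gt B)‖ < 1 := by
  refine (Kop_norm hU B _ _).trans_lt ?_
  have : mu B - 1 = 1 + ‖B‖ := by unfold mu; ring
  rw [this, div_lt_one (by positivity)]
  linarith

/-- the resolvent -/
noncomputable def Rop (hU : Grp U) (B : X →L[ℂ] X) : (ℝ →ᵇ X) →L[ℂ] (ℝ →ᵇ X) :=
  ((Units.oneSub (Kop hU B (mu B) (mu_gt B)) (Kop_lt hU B))⁻¹ : ((ℝ →ᵇ X) →L[ℂ] (ℝ →ᵇ X))ˣ)

/-- the solution -/
noncomputable def sol (hU : Grp U) (B : X →L[ℂ] X) : X →L[ℂ] (ℝ →ᵇ X) :=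
  (Rop hU B).comp (Jop hU (mu B) (mu_gt B))

lemma sol_eq (hU : Grp U) (B : X →L[ℂ] X) (f : X) :
    sol hU B f = Jop hU (mu B) (mu_gt B) f + Kop hU B (mu B) (mu_gt B) (sol hU B f) := by
  have h := (Units.oneSub (Kop hU B (mu B) (mu_gt B)) (Kop_lt hU B)).mul_inv
  have h2 := congrArg (fun T : (ℝ →ᵇ X) →L[ℂ] (ℝ →ᵇ X) => T (Jop hU (mu B) (mu_gt B) f)) h
  simp only [Units.val_oneSub] at h2
  have h3 : (1 - Kop hU B (mu B) (mu_gt B)) (sol hU B f) = Jop hU (mu B) (mu_gt B) f := h2
  rw [sub_apply] at h3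
  rw [← h3]
  simp

lemma sol_unique (hU : Grp U) (B : X →L[ℂ] X) (f : X) (u : ℝ →ᵇ X)
    (hu : u = Jop hU (mu B) (mu_gt B) f + Kop hU B (mu B) (mu_gt B) u) : u = sol hU B f := by
  have h := (Units.oneSub (Kop hU B (mu B) (mu_gt B)) (Kop_lt hU B)).inv_mul
  have h2 := congrArg (fun T : (ℝ →ᵇ X) →L[ℂ] (ℝ →ᵇ X) => T u) h
  simp only [Units.val_oneSub] at h2
  have h3 : Rop hU B ((1 - Kop hU B (mu B) (mu_gt B)) u) = u := h2
  have h4 : (1 - Kop hU B (mu B) (mu_gt B)) u = Jop hU (mu B) (mu_gt B) f := by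
    rw [sub_apply]
    nth_rewrite 1 [hu]
    simp
  rw [h4] at h3
  exact h3.symm

/-- the perturbed semigroup (for `t ≥ 0`) -/
noncomputable def Vop (hU : Grp U) (B : X →L[ℂ] X) (t : ℝ) : X →L[ℂ] X :=
  ((Real.exp (mu B * t) : ℝ) : ℂ) •
    ((BoundedContinuousFunction.evalCLM ℂ t).comp (sol hU B))

lemma Vop_apply (hU : Grp U) (B : X →L[ℂ] X) (t : ℝ) (f : X) :
    Vop hU B t f = ((Real.exp (mu B * t) : ℝ) : ℂ) • sol hU B f t := rfl

lemma Vop_cont (hU : Grp U) (B : X →L[ℂ] X) (f : X) : Continuous (fun t => Vop hU B t f) := by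
  have h1 : Continuous (fun t : ℝ => ((Real.exp (mu B * t) : ℝ) : ℂ)) := by fun_prop
  exact h1.smul (sol hU B f).continuous

lemma Vop_bd (hU : Grp U) (B : X →L[ℂ] X) (f : X) (t : ℝ) :
    ‖Vop hU B t f‖ ≤ Real.exp (mu B * t) * (‖sol hU B‖ * ‖f‖) := by
  rw [Vop_apply, norm_smul, Complex.norm_real, Real.norm_of_nonneg (Real.exp_pos _).le]
  exact mul_le_mul_of_nonneg_left
    (((sol hU B f).norm_coe_le_norm t).trans ((sol hU B).le_opNorm f)) (Real.exp_pos _).le

lemma Sc_exp (m t : ℝ) (f : X) : ((Real.exp (m * t) : ℝ) : ℂ) • Sc U m t f = U t f := by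
  rw [Sc_apply, smul_smul, ← Complex.ofReal_mul, ← Real.exp_add]
  have : m * t + -m * t = 0 := by ring
  rw [this]; simp

lemma Iin_conv (hU : Grp U) (B : X →L[ℂ] X) (m : ℝ) (u : ℝ → X) (t : ℝ) :
    Iin U B m u t = ∫ s in (0:ℝ)..t, U (-s) (B (((Real.exp (m * s) : ℝ) : ℂ) • u s)) := by
  unfold Iin
  congr 1; funext s
  rw [Sc_apply, map_smul, map_smul]
  congr 3; ring

/-- the integral equation -/
lemma Vop_eq (hU : Grp U) (B : X →L[ℂ] X) (f : X) {t : ℝ} (ht : 0 ≤ t) :
    Vop hU B t f = U t (f + ∫ s in (0:ℝ)..t, U (-s) (B (Vop hU B s f))) := by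
  rw [Vop_apply, sol_eq, BoundedContinuousFunction.coe_add, Pi.add_apply, Jop_apply, Kop_apply,
    max_eq_left ht, ← map_add, Sc_exp, Iin_conv hU]
  rfl

lemma Vop_unique (hU : Grp U) (B : X →L[ℂ] X) (f : X) (w : ℝ → X) (hw : Continuous w) (C : ℝ)
    (hC : ∀ t, 0 ≤ t → ‖w t‖ ≤ C * Real.exp (mu B * t))
    (heq : ∀ t, 0 ≤ t → w t = U t (f + ∫ s in (0:ℝ)..t, U (-s) (B (w s)))) {t : ℝ} (ht : 0 ≤ t) :
    w t = Vop hU B t f := by
  have hb : ∀ t, 0 ≤ t → ‖((Real.exp (-mu B * t) : ℝ) : ℂ) • w t‖ ≤ C := by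
    intro t ht
    rw [norm_smul, Complex.norm_real, Real.norm_of_nonneg (Real.exp_pos _).le]
    calc Real.exp (-mu B * t) * ‖w t‖ ≤ Real.exp (-mu B * t) * (C * Real.exp (mu B * t)) :=
          mul_le_mul_of_nonneg_left (hC t ht) (Real.exp_pos _).le
      _ = C * (Real.exp (-mu B * t) * Real.exp (mu B * t)) := by ring
      _ = C := by
          rw [← Real.exp_add]
          have : -mu B * t + mu B * t = 0 := by ring
          rw [this]; simp
  set u : ℝ →ᵇ X := BoundedContinuousFunction.ofNormedAddCommGroup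
    (fun t => ((Real.exp (-mu B * max t 0) : ℝ) : ℂ) • w (max t 0))
    (by
      have h1 : Continuous (fun t : ℝ => ((Real.exp (-mu B * t) : ℝ) : ℂ)) := by fun_prop
      exact (h1.smul hw).comp (continuous_id.max continuous_const)) C
    (fun t => hb _ (le_max_right _ _)) with hu
  have hu' : ∀ t, u t = ((Real.exp (-mu B * max t 0) : ℝ) : ℂ) • w (max t 0) := fun t => rfl
  have key : u = sol hU B f := by
    apply sol_unique
    ext t
    rw [BoundedContinuousFunction.coe_add, Pi.add_apply, Jop_apply, Kop_apply, ← map_add, hu',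
      heq _ (le_max_right _ _), Iin_conv hU, Sc_apply]
    congr 3
    apply intervalIntegral.integral_congr
    intro s hs
    rw [uIcc_of_le (le_max_right _ _)] at hs
    simp only
    congr 2
    rw [hu', max_eq_left hs.1, smul_smul, ← Complex.ofReal_mul, ← Real.exp_add]
    have : mu B * s + -mu B * s = 0 := by ring
    rw [this]; simp
  rw [Vop_apply, ← key, hu', max_eq_left ht, smul_smul, ← Complex.ofReal_mul, ← Real.exp_add]
  have : mu B * t + -mu B * t = 0 := by ring
  rw [this]; simp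

lemma Vop_zero (hU : Grp U) (B : X →L[ℂ] X) : Vop hU B 0 = 1 := by
  ext f
  rw [Vop_eq hU B f le_rfl, hU.zero]
  simp

lemma cont_int0 (hU : Grp U) (B : X →L[ℂ] X) {w : ℝ → X} (hw : Continuous w) :
    Continuous (fun s => U (-s) (B (w s))) := by
  have h1 : Continuous (fun s => U s (B (w (-s)))) :=
    hU.jc (B.continuous.comp (hw.comp continuous_neg))
  have h2 := h1.comp continuous_neg
  simpa [Function.comp_def] using h2

lemma Vop_add (hU : Grp U) (B : X →L[ℂ] X) {s t : ℝ} (hs : 0 ≤ s) (ht : 0 ≤ t) :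
    Vop hU B (t + s) = Vop hU B t * Vop hU B s := by
  ext f
  have h := Vop_unique hU B (Vop hU B s f) (fun t => Vop hU B (t + s) f)
    ((Vop_cont hU B f).comp (continuous_id.add continuous_const))
    (Real.exp (mu B * s) * (‖sol hU B‖ * ‖f‖))
    (fun t _ => by
      refine (Vop_bd hU B f (t + s)).trans (le_of_eq ?_)
      rw [mul_add, Real.exp_add]; ring)
    (fun t ht => by
      have hc := cont_int0 hU B (Vop_cont hU B f)
      have e1 : ∫ r in (0:ℝ)..t, U (-r) (B (Vop hU B (r + s) f)) =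
          U s (∫ r in s..(t + s), U (-r) (B (Vop hU B r f))) := by
        rw [← ContinuousLinearMap.intervalIntegral_comp_comm (U s) (hc.intervalIntegrable _ _)]
        have := intervalIntegral.integral_comp_add_right
          (fun r => U s (U (-r) (B (Vop hU B r f)))) s (a := 0) (b := t)
        rw [zero_add] at this
        rw [← this]
        congr 1; funext r
        rw [hU.comp]
        congr 2; ring
      change Vop hU B (t + s) f = U t (Vop hU B s f + ∫ r in (0:ℝ)..t, U (-r) (B (Vop hU B (r + s) f)))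
      rw [e1, Vop_eq hU B f (by linarith : 0 ≤ t + s), Vop_eq hU B f hs, ← map_add, hU.comp]
      congr 1
      rw [add_assoc, intervalIntegral.integral_add_adjacent_intervals
        (hc.intervalIntegrable _ _) (hc.intervalIntegrable _ _)]) ht
  exact h

/-- right derivative at zero -/
lemma Vop_deriv (hU : Grp U) (B : X →L[ℂ] X) (f : X) :
    Tendsto (fun h : ℝ => (h⁻¹ : ℂ) • (Vop hU B h f - U h f)) (𝓝[>] 0) (𝓝 (B f)) := by
  have hc := cont_int0 hU B (Vop_cont hU B f)
  set I : ℝ → X := fun t => ∫ s in (0:ℝ)..t, U (-s) (B (Vop hU B s f)) with hI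
  have hd : HasDerivAt I (B f) 0 := by
    have := intervalIntegral.integral_hasDerivAt_right (hc.intervalIntegrable 0 0)
      (hc.stronglyMeasurableAtFilter _ _) hc.continuousAt
    rw [Vop_zero, neg_zero, hU.zero] at this
    exact this
  have h1 : Tendsto (fun h : ℝ => (h⁻¹ : ℂ) • I h) (𝓝[>] 0) (𝓝 (B f)) := by
    have h2 := hd.tendsto_slope_zero_right
    refine h2.congr fun h => ?_
    rw [zero_add]
    have : I 0 = 0 := by simp [hI]
    rw [this, sub_zero]
    exact (Complex.ofReal_inv h ▸ (Complex.coe_smul h⁻¹ (I h)).symm :)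
  have h3 : Tendsto (fun h : ℝ => U h ((h⁻¹ : ℂ) • I h)) (𝓝[>] 0) (𝓝 (B f)) := by
    have h4 : Tendsto (fun h : ℝ => U h ((h⁻¹ : ℂ) • I h - B f)) (𝓝[>] 0) (𝓝 0) := by
      have h5 : Tendsto (fun h : ℝ => Real.exp |h| * ‖(h⁻¹ : ℂ) • I h - B f‖) (𝓝[>] 0) (𝓝 0) := by
        have h6 : Tendsto (fun h : ℝ => Real.exp |h|) (𝓝[>] 0) (𝓝 (Real.exp |0|)) :=
          ((by fun_prop : Continuous (fun h : ℝ => Real.exp |h|)).tendsto 0).mono_left
            nhdsWithin_le_nhds
        have h7 : Tendsto (fun h : ℝ => ‖(h⁻¹ : ℂ) • I h - B f‖) (𝓝[>] 0) (𝓝 0) := by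
          have := (h1.sub_const (B f)).norm
          simpa using this
        have := h6.mul h7
        simpa using this
      refine squeeze_zero_norm (fun t => ?_) h5
      exact ((U t).le_opNorm _).trans (mul_le_mul_of_nonneg_right (hU.bd t) (norm_nonneg _))
    have h8 : Tendsto (fun h : ℝ => U h (B f)) (𝓝[>] 0) (𝓝 (B f)) := by
      have := ((hU.cont (B f)).tendsto 0).mono_left (nhdsWithin_le_nhds (s := Ioi 0))
      rw [hU.zero] at this
      exact this
    have := h4.add h8
    rw [zero_add] at this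
    refine this.congr fun h => ?_
    rw [← map_add, sub_add_cancel]
  refine h3.congr' ?_
  filter_upwards [self_mem_nhdsWithin] with h hh
  have hh' : (0:ℝ) ≤ h := le_of_lt hh
  rw [Vop_eq hU B f hh', map_add, add_sub_cancel_left, map_smul]

/-- `g` is the value of the generator at `f` -/
def Gen (U : ℝ → X →L[ℂ] X) (f g : X) : Prop :=
  Tendsto (fun h : ℝ => (h⁻¹ : ℂ) • (U h f - f)) (𝓝[>] 0) (𝓝 g)

lemma gen_iff (hU : Grp U) (B : X →L[ℂ] X) (f g : X) :
    Gen (Vop hU B) f g ↔ Gen U f (g - B f) := by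
  have hd := Vop_deriv hU B f
  constructor
  · intro h
    have h2 := Tendsto.sub h hd
    refine h2.congr fun t => ?_
    rw [← smul_sub]; congr 1; abel
  · intro h
    have h2 := Tendsto.add h hd
    rw [sub_add_cancel] at h2
    refine h2.congr fun t => ?_
    rw [← smul_add]; congr 1; abel

end Abs

end Pool.Agent.V11111.GF
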