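import Pool.Agent.V11111.GF.Abs

/-!
# Bounded perturbations: positivity, compactness, essential spectrum, growth
-/

open Filter Topology MeasureTheory Set
open scoped BoundedContinuousFunction

namespace Pool.Agent.V11111.GF

section Pos

variable {X : Type*} [NormedAddCommGroup X] [NormedSpace ℂ X] {U : ℝ → X →L[ℂ] X}
variable {ι : Type*} (φ : ι → X →L[ℂ] ℂ)

/-- the cone cut out by the functionals `φ i` -/
def Pz (f : X) : Prop := ∀ i, 0 ≤ (φ i f).re ∧ (φ i f).im = 0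

lemma Pz.add {f g : X} (hf : Pz φ f) (hg : Pz φ g) : Pz φ (f + g) := by
  intro i
  rw [map_add]
  exact ⟨by rw [Complex.add_re]; linarith [(hf i).1, (hg i).1],
    by rw [Complex.add_im, (hf i).2, (hg i).2, add_zero]⟩

lemma Pz.smul {f : X} (hf : Pz φ f) {c : ℝ} (hc : 0 ≤ c) : Pz φ ((c : ℂ) • f) := by
  intro i
  rw [map_smul, smul_eq_mul, Complex.re_ofReal_mul, Complex.im_ofReal_mul]
  exact ⟨mul_nonneg hc (hf i).1, by rw [(hf i).2, mul_zero]⟩

lemma Pz.lim {f : ℕ → X} {g : X} (hf : ∀ n, Pz φ (f n)) (h : Tendsto f atTop (𝓝 g)) :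
    Pz φ g := by
  intro i
  have h1 : Tendsto (fun n => φ i (f n)) atTop (𝓝 (φ i g)) :=
    ((φ i).continuous.tendsto g).comp h
  have h2 : Tendsto (fun n => (φ i (f n)).re) atTop (𝓝 (φ i g).re) :=
    (Complex.continuous_re.tendsto _).comp h1
  have h3 : Tendsto (fun n => (φ i (f n)).im) atTop (𝓝 (φ i g).im) :=
    (Complex.continuous_im.tendsto _).comp h1
  refine ⟨ge_of_tendsto' h2 fun n => (hf n i).1, tendsto_nhds_unique h3 ?_⟩
  refine tendsto_const_nhds.congr fun n => ?_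
  rw [(hf n i).2]

variable [CompleteSpace X]

lemma Pz.integral {F : ℝ → X} (hF : Continuous F) {t : ℝ} (ht : 0 ≤ t)
    (h : ∀ s, 0 ≤ s → Pz φ (F s)) : Pz φ (∫ s in (0:ℝ)..t, F s) := by
  intro i
  have hint := hF.intervalIntegrable (μ := volume) 0 t
  constructor
  · have := ContinuousLinearMap.intervalIntegral_comp_comm
      (Complex.reCLM.comp ((φ i).restrictScalars ℝ)) hint
    have e : (φ i (∫ s in (0:ℝ)..t, F s)).re = ∫ s in (0:ℝ)..t, (φ i (F s)).re := this.symm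
    rw [e]
    exact intervalIntegral.integral_nonneg ht fun s hs => (h s hs.1 i).1
  · have := ContinuousLinearMap.intervalIntegral_comp_comm
      (Complex.imCLM.comp ((φ i).restrictScalars ℝ)) hint
    have e : (φ i (∫ s in (0:ℝ)..t, F s)).im = ∫ s in (0:ℝ)..t, (φ i (F s)).im := this.symm
    rw [e]
    have : ∫ s in (0:ℝ)..t, (φ i (F s)).im = ∫ s in (0:ℝ)..t, (0:ℝ) := by
      apply intervalIntegral.integral_congr
      intro s hs
      rw [uIcc_of_le ht] at hs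
      exact (h s hs.1 i).2
    rw [this]; simp

lemma Sc_pos (hP : ∀ t f, Pz φ f → Pz φ (U t f)) (m t : ℝ) {f : X} (hf : Pz φ f) :
    Pz φ (Sc U m t f) :=
  (hP t f hf).smul φ (Real.exp_pos _).le

lemma Kop_pos (hU : Grp U) (B : X →L[ℂ] X) (hP : ∀ t f, Pz φ f → Pz φ (U t f))
    (hB : ∀ f, Pz φ f → Pz φ (B f)) (m : ℝ) (hm : 1 < m) (u : ℝ →ᵇ X) (hu : ∀ t, Pz φ (u t))
    (t : ℝ) : Pz φ (Kop hU B m hm u t) := by
  rw [Kop_apply]
  apply Sc_pos φ hP
  exact Pz.integral φ (cont_integrand hU B m u.continuous) (le_max_right _ _)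
    fun s _ => Sc_pos φ hP _ _ (hB _ (hu s))

/-- Picard iterates -/
noncomputable def pic (hU : Grp U) (B : X →L[ℂ] X) (f : X) : ℕ → (ℝ →ᵇ X)
  | 0 => 0
  | n + 1 => Jop hU (mu B) (mu_gt B) f + Kop hU B (mu B) (mu_gt B) (pic hU B f n)

lemma pic_sub (hU : Grp U) (B : X →L[ℂ] X) (f : X) (n : ℕ) :
    ‖pic hU B f n - sol hU B f‖ ≤ ‖Kop hU B (mu B) (mu_gt B)‖ ^ n * ‖sol hU B f‖ := by
  induction n with
  | zero => simp [pic]
  | succ n ih =>
    have e : pic hU B f (n + 1) - sol hU B f =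
        Kop hU B (mu B) (mu_gt B) (pic hU B f n - sol hU B f) := by
      rw [map_sub]
      nth_rewrite 1 [sol_eq hU B f]
      rw [pic]
      abel
    rw [e]
    refine (ContinuousLinearMap.le_opNorm _ _).trans ?_
    rw [pow_succ, mul_comm (‖Kop hU B (mu B) (mu_gt B)‖ ^ n), mul_assoc]
    exact mul_le_mul_of_nonneg_left ih (norm_nonneg _)

lemma pic_tendsto (hU : Grp U) (B : X →L[ℂ] X) (f : X) :
    Tendsto (pic hU B f) atTop (𝓝 (sol hU B f)) := by
  rw [tendsto_iff_norm_sub_tendsto_zero]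
  have h1 : Tendsto (fun n : ℕ => ‖Kop hU B (mu B) (mu_gt B)‖ ^ n * ‖sol hU B f‖) atTop
      (𝓝 (0 * ‖sol hU B f‖)) :=
    (tendsto_pow_atTop_nhds_zero_of_lt_one (norm_nonneg _) (Kop_lt hU B)).mul_const _
  rw [zero_mul] at h1
  exact squeeze_zero (fun n => norm_nonneg _) (pic_sub hU B f) h1

lemma pic_pos (hU : Grp U) (B : X →L[ℂ] X) (hP : ∀ t f, Pz φ f → Pz φ (U t f))
    (hB : ∀ f, Pz φ f → Pz φ (B f)) {f : X} (hf : Pz φ f) (n : ℕ) (t : ℝ) :
    Pz φ (pic hU B f n t) := by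
  induction n generalizing t with
  | zero =>
    intro i
    simp [pic]
  | succ n ih =>
    rw [pic, BoundedContinuousFunction.coe_add, Pi.add_apply]
    apply Pz.add
    · rw [Jop_apply]
      exact Sc_pos φ hP _ _ hf
    · exact Kop_pos φ hU B hP hB _ _ _ ih t

lemma Vop_pos (hU : Grp U) (B : X →L[ℂ] X) (hP : ∀ t f, Pz φ f → Pz φ (U t f))
    (hB : ∀ f, Pz φ f → Pz φ (B f)) {f : X} (hf : Pz φ f) (t : ℝ) :
    Pz φ (Vop hU B t f) := by
  rw [Vop_apply]
  refine Pz.smul φ ?_ (Real.exp_pos _).le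
  refine Pz.lim φ (fun n => pic_pos φ hU B hP hB hf n t) ?_
  exact ((BoundedContinuousFunction.evalCLM ℂ t).continuous.tendsto _).comp (pic_tendsto hU B f)

end Pos

section Cpt

variable {X : Type*} [NormedAddCommGroup X] [NormedSpace ℂ X] [CompleteSpace X]
  {U : ℝ → X →L[ℂ] X}

lemma cpt_of_integral (D : X →L[ℂ] X) (c : ℝ → X → ℂ) (h : ℝ → X) (hh : Continuous h)
    (hc : ∀ f, Continuous (fun s => c s f)) (C t : ℝ) (ht : 0 < t)
    (hC : ∀ s ∈ Icc 0 t, ∀ f, ‖f‖ ≤ 1 → ‖c s f‖ ≤ C)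
    (hD : ∀ f, D f = ∫ s in (0:ℝ)..t, c s f • h s) : IsCompactOperator D := by
  set K₀ : Set X := (fun p : ℂ × ℝ => p.1 • h p.2) '' (Metric.closedBall (0 : ℂ) C ×ˢ Icc 0 t)
    with hK₀
  have hK₀c : IsCompact K₀ := by
    apply ((isCompact_closedBall (0 : ℂ) C).prod isCompact_Icc).image
    exact continuous_fst.smul (hh.comp continuous_snd)
  set K₁ : Set X := closure (convexHull ℝ K₀) with hK₁
  have hK₁c : IsCompact K₁ := by
    have : TotallyBounded K₁ := (hK₀c.totallyBounded.convexHull).closure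
    exact isCompact_iff_totallyBounded_isComplete.2 ⟨this, isClosed_closure.isComplete⟩
  set K : Set X := (fun x => t • x) '' K₁ with hK
  have hKc : IsCompact K := hK₁c.image (continuous_const_smul t)
  refine ⟨K, hKc, ?_⟩
  filter_upwards [Metric.closedBall_mem_nhds (0 : X) one_pos] with f hf
  have hf' : ‖f‖ ≤ 1 := by simpa using hf
  rw [mem_preimage, hD f]
  have hcont : Continuous (fun s => c s f • h s) := (hc f).smul hh
  have h1 : (⨍ s in Ioc 0 t, c s f • h s) ∈ K₁ := by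
    refine Convex.set_average_mem (convex_convexHull ℝ K₀).closure isClosed_closure ?_ ?_ ?_ ?_
    · rw [Real.volume_Ioc]; simp [ht]
    · rw [Real.volume_Ioc]; simp
    · rw [ae_restrict_iff' measurableSet_Ioc]
      refine Eventually.of_forall fun s hs => ?_
      apply subset_closure
      apply subset_convexHull
      refine ⟨(c s f, s), ⟨?_, ⟨hs.1.le, hs.2⟩⟩, rfl⟩
      rw [mem_closedBall_zero_iff]
      exact hC s ⟨hs.1.le, hs.2⟩ f hf'
    · exact (hcont.intervalIntegrable 0 t).1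
  refine ⟨_, h1, ?_⟩
  simp only
  rw [setAverage_eq, intervalIntegral.integral_of_le ht.le, smul_smul]
  have : t * (volume.real (Ioc 0 t))⁻¹ = 1 := by
    rw [Real.volume_real_Ioc_of_le ht.le, sub_zero, mul_inv_cancel₀ ht.ne']
  rw [this, one_smul]

lemma Vop_sub_cpt (hU : Grp U) (ℓ : X →L[ℂ] ℂ) (β : X) {t : ℝ} (ht : 0 < t) :
    IsCompactOperator (Vop hU (ℓ.smulRight β) t - U t) := by
  set B := ℓ.smulRight β with hB
  obtain ⟨C, hC⟩ : ∃ C : ℝ, ∀ s ∈ Icc 0 t, ∀ f : X, ‖f‖ ≤ 1 → ‖ℓ (Vop hU B s f)‖ ≤ C := by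
    refine ⟨‖ℓ‖ * (Real.exp (mu B * t) * ‖sol hU B‖), fun s hs f hf => ?_⟩
    refine (ℓ.le_opNorm _).trans (mul_le_mul_of_nonneg_left ?_ (norm_nonneg _))
    refine (Vop_bd hU B f s).trans ?_
    have h1 : Real.exp (mu B * s) ≤ Real.exp (mu B * t) := by
      apply Real.exp_le_exp.2
      exact mul_le_mul_of_nonneg_left hs.2 (by linarith [mu_gt B])
    have h2 : ‖sol hU B‖ * ‖f‖ ≤ ‖sol hU B‖ := by
      nlinarith [norm_nonneg (sol hU B)]
    exact mul_le_mul h1 h2 (by positivity) (Real.exp_pos _).le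
  refine cpt_of_integral (Vop hU B t - U t) (fun s f => ℓ (Vop hU B s f))
    (fun s => U (t + -s) β) ?_ (fun f => ℓ.continuous.comp (Vop_cont hU B f)) C t ht hC ?_
  · exact (hU.cont β).comp (continuous_const.add continuous_neg)
  · intro f
    rw [sub_apply, Vop_eq hU B f ht.le, map_add, add_sub_cancel_left,
      ← ContinuousLinearMap.intervalIntegral_comp_comm (U t)
        ((cont_int0 hU B (Vop_cont hU B f)).intervalIntegrable _ _)]
    congr 1; funext s
    rw [hU.comp, hB, ContinuousLinearMap.smulRight_apply, map_smul]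

/-- invertible modulo compact operators -/
def EssInv (T : X →L[ℂ] X) : Prop :=
  ∃ S : X →L[ℂ] X, IsCompactOperator (S * T - 1 : X →L[ℂ] X) ∧
    IsCompactOperator (T * S - 1 : X →L[ℂ] X)

lemma essInv_of (T K : X →L[ℂ] X) (hK : IsCompactOperator K) (z : ℂ)
    (hz : z ∉ spectrum ℂ T) : EssInv (z • (1 : X →L[ℂ] X) - (T + K)) := by
  rw [spectrum.notMem_iff, Algebra.algebraMap_eq_smul_one] at hz
  obtain ⟨u, hu⟩ := hz
  refine ⟨(u⁻¹ : (X →L[ℂ] X)ˣ), ?_, ?_⟩
  · have e : ((u⁻¹ : (X →L[ℂ] X)ˣ) : X →L[ℂ] X) * (z • (1 : X →L[ℂ] X) - (T + K)) - 1 =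
        -(((u⁻¹ : (X →L[ℂ] X)ˣ) : X →L[ℂ] X) * K) := by
      rw [← sub_sub, ← hu, mul_sub, Units.inv_mul]; abel
    rw [e]
    have h1 : IsCompactOperator (((u⁻¹ : (X →L[ℂ] X)ˣ) : X →L[ℂ] X) ∘ K) :=
      hK.clm_comp ((u⁻¹ : (X →L[ℂ] X)ˣ) : X →L[ℂ] X)
    exact h1.neg
  · have e : (z • (1 : X →L[ℂ] X) - (T + K)) * ((u⁻¹ : (X →L[ℂ] X)ˣ) : X →L[ℂ] X) - 1 =
        -(K * ((u⁻¹ : (X →L[ℂ] X)ˣ) : X →L[ℂ] X)) := by
      rw [← sub_sub, ← hu, sub_mul, Units.mul_inv]; abel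
    rw [e]
    have h1 : IsCompactOperator (K ∘ ((u⁻¹ : (X →L[ℂ] X)ˣ) : X →L[ℂ] X)) :=
      hK.comp_clm ((u⁻¹ : (X →L[ℂ] X)ˣ) : X →L[ℂ] X)
    exact h1.neg

lemma spec_le_one (hU : Grp U) (a : ℝ) (ha : 0 ≤ a)
    (hb : ∀ t, 0 ≤ t → ‖U t‖ ≤ a * (1 + t)) {t : ℝ} (ht : 0 ≤ t) {z : ℂ}
    (hz : z ∈ spectrum ℂ (U t)) : ‖z‖ ≤ 1 := by
  by_contra hcon
  push Not at hcon
  have hpow : ∀ n : ℕ, U t ^ n = U (n * t) := by
    intro n
    induction n with
    | zero => simp [hU.zero]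
    | succ n ih =>
      rw [pow_succ, ih, ← hU.add]; congr 1; push_cast; ring
  have h1 : ∀ n : ℕ, ‖z‖ ^ n ≤ a * (1 + n * t) := by
    intro n
    have h2 := spectrum.pow_mem_pow (U t) n hz
    have h3 := spectrum.norm_le_norm_mul_of_mem h2
    rw [norm_pow, hpow] at h3
    have h4 : ‖(1 : X →L[ℂ] X)‖ ≤ 1 := ContinuousLinearMap.norm_id_le
    have h5 := hb (n * t) (by positivity)
    calc ‖z‖ ^ n ≤ ‖U (n * t)‖ * ‖(1 : X →L[ℂ] X)‖ := h3
      _ ≤ ‖U (n * t)‖ * 1 := mul_le_mul_of_nonneg_left h4 (norm_nonneg _)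
      _ ≤ a * (1 + n * t) := by rw [mul_one]; exact h5
  have h6 : Tendsto (fun n : ℕ => (a * (1 + n * t)) / ‖z‖ ^ n) atTop (𝓝 0) := by
    have h7 := tendsto_pow_const_div_const_pow_of_one_lt 0 hcon
    have h8 := tendsto_pow_const_div_const_pow_of_one_lt 1 hcon
    have h9 := (h7.const_mul a).add (h8.const_mul (a * t))
    rw [mul_zero, mul_zero, add_zero] at h9
    refine h9.congr fun n => ?_
    rw [pow_zero, pow_one]; ring
  have h10 : (1 : ℝ) ≤ 0 := by
    refine ge_of_tendsto' h6 fun n => ?_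
    rw [le_div_iff₀ (by positivity), one_mul]
    exact h1 n
  linarith

lemma growth (hU : Grp U) (B : X →L[ℂ] X) (E : X →L[ℂ] ℂ)
    (hE : ∀ f, Tendsto (fun h : ℝ => (h⁻¹ : ℂ) • (E (U h f) - E f)) (𝓝[>] 0)
      (𝓝 (E f - E (B f)))) (f : X) {t : ℝ} (ht : 0 ≤ t) :
    E (Vop hU B t f) = Real.exp t • E f := by
  set m : ℝ → ℂ := fun t => E (Vop hU B t f) with hm
  have hmc : Continuous m := E.continuous.comp (Vop_cont hU B f)
  have hd : ∀ s, 0 ≤ s → HasDerivWithinAt m (m s) (Ici s) s := by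
    intro s hs
    rw [← hasDerivWithinAt_Ioi_iff_Ici, hasDerivWithinAt_iff_tendsto_slope' (by simp)]
    have h1 := hE (Vop hU B s f)
    have h2 := (E.continuous.tendsto _).comp (Vop_deriv hU B (Vop hU B s f))
    have h3 := h1.add h2
    rw [sub_add_cancel] at h3
    have h4 : Tendsto (fun y : ℝ => y - s) (𝓝[>] s) (𝓝[>] 0) := by
      refine tendsto_nhdsWithin_iff.2 ⟨?_, ?_⟩
      · have : Tendsto (fun y : ℝ => y - s) (𝓝 s) (𝓝 (s - s)) :=
          (continuous_id.sub continuous_const).tendsto s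
        rw [sub_self] at this
        exact this.mono_left nhdsWithin_le_nhds
      · filter_upwards [self_mem_nhdsWithin] with y hy
        exact mem_Ioi.2 (sub_pos.2 (mem_Ioi.1 hy))
    have h5 := h3.comp h4
    refine h5.congr' ?_
    filter_upwards [self_mem_nhdsWithin] with y hy
    have hy' : (0:ℝ) ≤ y - s := sub_nonneg.2 (le_of_lt hy)
    have e : Vop hU B y f = Vop hU B (y - s) (Vop hU B s f) := by
      have := Vop_add hU B hs hy'
      rw [sub_add_cancel] at this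
      rw [this]; rfl
    simp only [Function.comp_def, slope, hm, vsub_eq_sub]
    rw [e, map_smul, map_sub, ← smul_add, Complex.real_smul, Complex.ofReal_inv, smul_eq_mul]
    congr 1
    ring
  have hn : ∀ s ∈ Icc 0 t, (fun s : ℝ => Real.exp (-s) • m s) s = Real.exp (-0) • m 0 := by
    apply constant_of_has_deriv_right_zero
    · exact ((by fun_prop : Continuous (fun s : ℝ => Real.exp (-s))).smul hmc).continuousOn
    · intro s hs
      have h1 : HasDerivWithinAt (fun s : ℝ => Real.exp (-s)) (-Real.exp (-s)) (Ici s) s := by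
        have := ((hasDerivAt_id s).neg).exp
        simpa using this.hasDerivWithinAt
      have h2 := h1.smul (hd s hs.1)
      have e : Real.exp (-s) • m s + -Real.exp (-s) • m s = 0 := by
        rw [neg_smul, add_neg_cancel]
      rw [e] at h2
      exact h2
  have h := hn t ⟨ht, le_rfl⟩
  simp only [neg_zero, Real.exp_zero, one_smul] at h
  have h0 : m 0 = E f := by simp only [hm]; rw [Vop_zero]; rfl
  rw [h0] at h
  rw [← h, smul_smul, ← Real.exp_add]
  simp [hm]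

lemma growth_lb (hU : Grp U) (B : X →L[ℂ] X) (E : X →L[ℂ] ℂ)
    (hE : ∀ f, Tendsto (fun h : ℝ => (h⁻¹ : ℂ) • (E (U h f) - E f)) (𝓝[>] 0)
      (𝓝 (E f - E (B f)))) (f : X) (hf : E f ≠ 0) (M w : ℝ)
    (hw : ∀ t, 0 ≤ t → ‖Vop hU B t‖ ≤ M * Real.exp (w * t)) : 1 ≤ w := by
  by_contra hcon
  push Not at hcon
  have h1 : ∀ t : ℝ, 0 ≤ t → ‖E f‖ ≤ ‖E‖ * (M * Real.exp ((w - 1) * t) * ‖f‖) := by
    intro t ht
    have h2 := growth hU B E hE f ht
    have h3 : ‖E (Vop hU B t f)‖ ≤ ‖E‖ * (M * Real.exp (w * t) * ‖f‖) := by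
      refine (E.le_opNorm _).trans (mul_le_mul_of_nonneg_left ?_ (norm_nonneg _))
      exact ((Vop hU B t).le_opNorm f).trans
        (mul_le_mul_of_nonneg_right (hw t ht) (norm_nonneg _))
    rw [h2, norm_smul, Real.norm_of_nonneg (Real.exp_pos _).le] at h3
    have h4 : ‖E f‖ = Real.exp (-t) * (Real.exp t * ‖E f‖) := by
      rw [← mul_assoc, ← Real.exp_add]; simp
    rw [h4]
    calc Real.exp (-t) * (Real.exp t * ‖E f‖) ≤
          Real.exp (-t) * (‖E‖ * (M * Real.exp (w * t) * ‖f‖)) :=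
          mul_le_mul_of_nonneg_left h3 (Real.exp_pos _).le
      _ = ‖E‖ * (M * (Real.exp (-t) * Real.exp (w * t)) * ‖f‖) := by ring
      _ = ‖E‖ * (M * Real.exp ((w - 1) * t) * ‖f‖) := by
          rw [← Real.exp_add]; congr 4; ring
  have h5 : Tendsto (fun t : ℝ => ‖E‖ * (M * Real.exp ((w - 1) * t) * ‖f‖)) atTop
      (𝓝 (‖E‖ * (M * 0 * ‖f‖))) := by
    refine ((Tendsto.const_mul M ?_).mul_const _).const_mul _
    apply Real.tendsto_exp_atBot.comp
    exact tendsto_id.const_mul_atTop_of_neg (by linarith)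
  have h6 : ‖E f‖ ≤ ‖E‖ * (M * 0 * ‖f‖) :=
    ge_of_tendsto h5 (by filter_upwards [eventually_ge_atTop 0] with t ht using h1 t ht)
  simp only [mul_zero, zero_mul] at h6
  exact hf (norm_le_zero_iff.1 h6)

end Cpt

end Pool.Agent.V11111.GF
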