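import Mathlib

/-!
# The flow of `r(x) = min (x²) x`
-/

open Filter Topology MeasureTheory Set
open scoped ENNReal

namespace Pool.Agent.V11111.GF

/-- position at time `σ` (starting at `1`) -/
noncomputable def pp (σ : ℝ) : ℝ := if σ ≤ 0 then 1 / (1 - σ) else Real.exp σ
/-- time to reach `x` -/
noncomputable def ss (x : ℝ) : ℝ := if x ≤ 1 then 1 - 1 / x else Real.log x
/-- growth rate -/
noncomputable def rr (x : ℝ) : ℝ := min (x ^ 2) x
/-- `log ∘ pp` -/
noncomputable def qq (σ : ℝ) : ℝ := max σ 0 - Real.log (1 + max (-σ) 0)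
/-- log of the weight -/
noncomputable def LL (σ : ℝ) : ℝ := min (qq σ) (2 - σ)
/-- log of the dual eigenfunction times weight -/
noncomputable def NN (σ : ℝ) : ℝ := min σ (2 - σ)
/-- integrated fragmentation rate -/
noncomputable def AA (σ : ℝ) : ℝ := 2 * max (σ - 1) 0
/-- fragmentation rate -/
noncomputable def aa (x : ℝ) : ℝ := if Real.exp 1 ≤ x then 2 else 0

lemma exp_qq (σ : ℝ) : Real.exp (qq σ) = pp σ := by
  unfold qq pp
  split_ifs with h
  · rw [max_eq_right h, max_eq_left (by linarith), zero_sub, Real.exp_neg,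
      Real.exp_log (by linarith), one_div]
    congr 1
  · push Not at h
    rw [max_eq_left h.le, max_eq_right (by linarith)]
    simp

lemma pp_pos (σ : ℝ) : 0 < pp σ := by rw [← exp_qq]; exact Real.exp_pos _

lemma rr_pos {x : ℝ} (hx : 0 < x) : 0 < rr x := lt_min (by positivity) hx

lemma LL_eq (σ : ℝ) : LL σ = qq σ - AA σ := by
  unfold LL AA
  rcases le_total σ 1 with h | h
  · rw [max_eq_right (by linarith : σ - 1 ≤ 0), mul_zero, sub_zero, min_eq_left]
    unfold qq
    have h1 : 0 ≤ Real.log (1 + max (-σ) 0) :=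
      Real.log_nonneg (by linarith [le_max_right (-σ) 0])
    rcases le_total σ 0 with h2 | h2
    · rw [max_eq_right h2]; linarith
    · rw [max_eq_left h2]; linarith
  · have e : qq σ = σ := by
      unfold qq
      rw [max_eq_left (by linarith), max_eq_right (by linarith)]
      simp
    rw [e, max_eq_left (by linarith : (0:ℝ) ≤ σ - 1), min_eq_right (by linarith)]
    ring

lemma ss_pp (σ : ℝ) : ss (pp σ) = σ := by
  unfold pp
  split_ifs with h
  · have h1 : 1 / (1 - σ) ≤ 1 := by rw [div_le_one (by linarith)]; linarith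
    rw [ss, if_pos h1, one_div_one_div]; ring
  · push Not at h
    have h1 : ¬ Real.exp σ ≤ 1 := by
      push Not; exact Real.one_lt_exp_iff.2 h
    rw [ss, if_neg h1, Real.log_exp]

lemma pp_ss {x : ℝ} (hx : 0 < x) : pp (ss x) = x := by
  unfold ss
  split_ifs with h
  · have h1 : 1 - 1 / x ≤ 0 := by
      have : 1 ≤ 1 / x := by rw [le_div_iff₀ hx]; linarith
      linarith
    rw [pp, if_pos h1]
    field_simp
    ring
  · push Not at h
    have h1 : ¬ Real.log x ≤ 0 := by push Not; exact Real.log_pos h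
    rw [pp, if_neg h1, Real.exp_log hx]

lemma glue {f g : ℝ → ℝ} {a d : ℝ} (hf : HasDerivAt f d a) (hg : HasDerivAt g d a)
    (hfg : f a = g a) : HasDerivAt (fun x => if x ≤ a then f x else g x) d a := by
  have h1 : HasDerivWithinAt (fun x => if x ≤ a then f x else g x) d (Iic a) a := by
    refine hf.hasDerivWithinAt.congr (fun x hx => ?_) (by simp)
    rw [if_pos (mem_Iic.1 hx)]
  have h2 : HasDerivWithinAt (fun x => if x ≤ a then f x else g x) d (Ici a) a := by
    refine hg.hasDerivWithinAt.congr (fun x hx => ?_) (by simp [hfg])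
    rcases eq_or_lt_of_le (mem_Ici.1 hx) with h | h
    · subst h; simp [hfg]
    · rw [if_neg (not_le.2 h)]
  have h3 := h1.union h2
  rw [Iic_union_Ici] at h3
  exact hasDerivWithinAt_univ.1 h3

lemma rr_pp_neg {σ : ℝ} (h : σ ≤ 0) : rr (pp σ) = (1 / (1 - σ)) ^ 2 := by
  have h1 : 1 / (1 - σ) ≤ 1 := by rw [div_le_one (by linarith)]; linarith
  have h2 : 0 < 1 / (1 - σ) := by apply one_div_pos.2; linarith
  rw [pp, if_pos h, rr, min_eq_left]
  nlinarith

lemma rr_pp_pos {σ : ℝ} (h : 0 ≤ σ) : rr (pp σ) = Real.exp σ := by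
  rcases eq_or_lt_of_le h with h0 | h0
  · rw [rr_pp_neg h0.symm.le, ← h0]; simp
  · have h1 : 1 ≤ Real.exp σ := Real.one_le_exp h
    rw [pp, if_neg (not_le.2 h0), rr, min_eq_right]
    nlinarith

lemma hasDeriv_pp (σ : ℝ) : HasDerivAt pp (rr (pp σ)) σ := by
  have d1 : ∀ σ : ℝ, σ < 1 → HasDerivAt (fun σ : ℝ => 1 / (1 - σ)) ((1 / (1 - σ)) ^ 2) σ := by
    intro σ hσ
    have h1 : HasDerivAt (fun σ : ℝ => 1 - σ) (-1) σ := by
      simpa using (hasDerivAt_id σ).const_sub 1
    have h2 := h1.inv (by linarith : (1:ℝ) - σ ≠ 0)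
    have e : (fun σ : ℝ => 1 / (1 - σ)) = (fun σ : ℝ => 1 - σ)⁻¹ := by
      funext x; simp
    rw [e]
    refine h2.congr_deriv ?_
    rw [neg_neg, one_div, one_div, inv_pow]
  rcases lt_trichotomy σ 0 with h | h | h
  · rw [rr_pp_neg h.le]
    refine (d1 σ (by linarith)).congr_of_eventuallyEq ?_
    filter_upwards [Iio_mem_nhds h] with x hx
    rw [pp, if_pos (mem_Iio.1 hx).le]
  · subst h
    have e1 := d1 0 one_pos
    have e2 := Real.hasDerivAt_exp 0
    have : rr (pp 0) = 1 := by rw [rr_pp_pos le_rfl]; simp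
    rw [this]
    refine glue (f := fun σ => 1 / (1 - σ)) (g := Real.exp) ?_ ?_ ?_
    · simpa using e1
    · simpa using e2
    · simp
  · rw [rr_pp_pos h.le]
    refine (Real.hasDerivAt_exp σ).congr_of_eventuallyEq ?_
    filter_upwards [Ioi_mem_nhds h] with x hx
    rw [pp, if_neg (not_le.2 (mem_Ioi.1 hx))]

lemma hasDeriv_ss {x : ℝ} (hx : 0 < x) : HasDerivAt ss (1 / rr x) x := by
  have d1 : ∀ x : ℝ, 0 < x → HasDerivAt (fun x : ℝ => 1 - 1 / x) (1 / x ^ 2) x := by
    intro x hx
    have h2 := (hasDerivAt_inv hx.ne').const_sub 1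
    have e : (fun x : ℝ => 1 - 1 / x) = (fun x : ℝ => 1 - x⁻¹) := by
      funext x; rw [one_div]
    rw [e]
    refine h2.congr_deriv ?_
    rw [neg_neg, one_div]
  rcases lt_trichotomy x 1 with h | h | h
  · have : rr x = x ^ 2 := by rw [rr, min_eq_left]; nlinarith
    rw [this]
    refine (d1 x hx).congr_of_eventuallyEq ?_
    filter_upwards [Iio_mem_nhds h] with y hy
    rw [ss, if_pos (mem_Iio.1 hy).le]
  · subst h
    have e1 := d1 1 one_pos
    have e2 := Real.hasDerivAt_log one_ne_zero
    have : rr 1 = 1 := by simp [rr]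
    rw [this]
    refine glue (f := fun x => 1 - 1 / x) (g := Real.log) ?_ ?_ ?_
    · simpa using e1
    · simpa using e2
    · simp
  · have : rr x = x := by rw [rr, min_eq_right]; nlinarith
    rw [this, one_div]
    refine (Real.hasDerivAt_log hx.ne').congr_of_eventuallyEq ?_
    filter_upwards [Ioi_mem_nhds h] with y hy
    rw [ss, if_neg (not_le.2 (mem_Ioi.1 hy))]

/-! ### Lipschitz bounds -/

lemma qq_aux {a b : ℝ} (hab : a ≤ b) : qq a ≤ qq b ∧ qq b - qq a ≤ b - a := by
  have hm : ∀ x : ℝ, max x 0 = x + max (-x) 0 := by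
    intro x
    rcases le_total x 0 with h | h
    · rw [max_eq_right h, max_eq_left (by linarith)]; ring
    · rw [max_eq_left h, max_eq_right (by linarith)]; ring
  set u := max (-a) 0 with hu
  set v := max (-b) 0 with hv
  have hv0 : 0 ≤ v := le_max_right _ _
  have huv : v ≤ u := max_le_max_right 0 (by linarith)
  have hlog : Real.log (1 + v) ≤ Real.log (1 + u) :=
    Real.log_le_log (by linarith) (by linarith)
  constructor
  · unfold qq
    have : max a 0 ≤ max b 0 := max_le_max_right 0 hab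
    rw [← hu, ← hv]; linarith
  · unfold qq
    rw [hm a, hm b, ← hu, ← hv]
    have h1 : Real.log (1 + u) - Real.log (1 + v) ≤ u - v := by
      rw [← Real.log_div (by linarith) (by linarith)]
      have h2 := Real.log_le_sub_one_of_pos (x := (1 + u) / (1 + v)) (by positivity)
      have h3 : (1 + u) / (1 + v) - 1 ≤ u - v := by
        rw [sub_le_iff_le_add, div_le_iff₀ (by linarith)]
        nlinarith
      linarith
    linarith

lemma qq_lip (a b : ℝ) : |qq a - qq b| ≤ |a - b| := by
  rcases le_total a b with h | h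
  · obtain ⟨h1, h2⟩ := qq_aux h
    rw [abs_sub_comm, abs_of_nonneg (by linarith), abs_sub_comm, abs_of_nonneg (by linarith)]
    linarith
  · obtain ⟨h1, h2⟩ := qq_aux h
    rw [abs_of_nonneg (by linarith), abs_of_nonneg (by linarith)]
    linarith

lemma LL_lip (a b : ℝ) : |LL a - LL b| ≤ |a - b| := by
  unfold LL
  refine (abs_min_sub_min_le_max _ _ _ _).trans (max_le (qq_lip a b) ?_)
  rw [show (2 - a) - (2 - b) = -(a - b) by ring, abs_neg]

lemma NN_lip (a b : ℝ) : |NN a - NN b| ≤ |a - b| := by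
  unfold NN
  refine (abs_min_sub_min_le_max _ _ _ _).trans (max_le le_rfl ?_)
  rw [show (2 - a) - (2 - b) = -(a - b) by ring, abs_neg]

lemma cont_of_lip {f : ℝ → ℝ} (h : ∀ a b, |f a - f b| ≤ |a - b|) : Continuous f := by
  have : LipschitzWith 1 f := LipschitzWith.of_dist_le_mul fun a b => by
    rw [Real.dist_eq, Real.dist_eq]; simpa using h a b
  exact this.continuous

lemma LL_cont : Continuous LL := cont_of_lip LL_lip
lemma NN_cont : Continuous NN := cont_of_lip NN_lip

lemma qq_le {σ : ℝ} : qq σ ≤ max σ 0 := by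
  unfold qq
  have h1 : 0 ≤ Real.log (1 + max (-σ) 0) :=
    Real.log_nonneg (by linarith [le_max_right (-σ) 0])
  linarith

lemma le_qq (σ : ℝ) : σ ≤ qq σ := by
  rcases le_total 0 σ with h | h
  · obtain ⟨h1, h2⟩ := qq_aux h
    have e : qq σ = σ := by
      unfold qq
      rw [max_eq_left (by linarith), max_eq_right (by linarith)]
      simp
    rw [e]
  · obtain ⟨h1, h2⟩ := qq_aux h
    have e : qq 0 = 0 := by simp [qq]
    rw [e] at h2
    linarith

lemma NN_le_LL (σ : ℝ) : NN σ ≤ LL σ := min_le_min_right _ (le_qq σ)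

lemma NN_eq_LL {σ : ℝ} (h : 0 ≤ σ) : NN σ = LL σ := by
  unfold NN LL
  have e : qq σ = σ := by
    unfold qq
    rw [max_eq_left (by linarith), max_eq_right (by linarith)]
    simp
  rw [e]

lemma LL_le_one (σ : ℝ) : LL σ ≤ 1 := by
  unfold LL
  rcases le_total σ 1 with h | h
  · exact (min_le_left _ _).trans (qq_le.trans (max_le h zero_le_one))
  · exact (min_le_right _ _).trans (by linarith)

lemma LL_growth (τ t : ℝ) (ht : 0 ≤ t) : LL (τ + t) - LL τ ≤ 1 + Real.log (1 + t) := by
  have hlt : 0 ≤ Real.log (1 + t) := Real.log_nonneg (by linarith)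
  rcases le_total 0 τ with h | h
  · rcases le_total τ 1 with h1 | h1
    · have h2 : 0 ≤ LL τ := by
        rw [← NN_eq_LL h]; exact le_min h (by linarith)
      linarith [LL_le_one (τ + t)]
    · have h2 : LL τ = 2 - τ := by
        rw [← NN_eq_LL h]; exact min_eq_right (by linarith)
      have h3 : LL (τ + t) ≤ 2 - (τ + t) := min_le_right _ _
      linarith
  · have h2 : LL τ = -Real.log (1 - τ) := by
      rw [LL_eq, AA, max_eq_right (by linarith : τ - 1 ≤ 0), qq, max_eq_right h,
        max_eq_left (by linarith)]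
      simp [sub_eq_add_neg]
    rcases le_total (τ + t) 0 with h3 | h3
    · have h4 : LL (τ + t) ≤ -Real.log (1 - (τ + t)) := by
        refine (min_le_left _ _).trans (le_of_eq ?_)
        rw [qq, max_eq_right h3, max_eq_left (by linarith), zero_sub, ← sub_eq_add_neg]
      have h5 : Real.log (1 - τ) ≤ Real.log ((1 + t) * (1 - (τ + t))) :=
        Real.log_le_log (by linarith) (by nlinarith)
      rw [Real.log_mul (by linarith) (by linarith)] at h5
      linarith
    · have h5 : Real.log (1 - τ) ≤ Real.log (1 + t) :=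
        Real.log_le_log (by linarith) (by linarith)
      linarith [LL_le_one (τ + t)]

/-! ### images, measurability, change of variables -/

lemma pp_meas : Measurable pp := by
  have : Continuous pp := by
    rw [continuous_iff_continuousAt]; exact fun σ => (hasDeriv_pp σ).continuousAt
  exact this.measurable

lemma ss_meas : Measurable ss := by
  unfold ss
  exact Measurable.ite (measurableSet_le measurable_id measurable_const)
    (measurable_const.sub (measurable_const.div measurable_id)) Real.measurable_log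

lemma rr_meas : Measurable rr := (measurable_id.pow_const 2).min measurable_id

lemma rr_cont : Continuous rr := (continuous_id.pow 2).min continuous_id

lemma pp_image : pp '' univ = Ioi 0 := by
  ext x
  simp only [image_univ, mem_range, mem_Ioi]
  exact ⟨fun ⟨σ, h⟩ => h ▸ pp_pos σ, fun h => ⟨ss x, pp_ss h⟩⟩

lemma ss_image : ss '' Ioi 0 = univ := by
  rw [eq_univ_iff_forall]
  exact fun σ => ⟨pp σ, pp_pos σ, ss_pp σ⟩

lemma pp_inj : Function.Injective pp := Function.LeftInverse.injective ss_pp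

lemma ss_inj : InjOn ss (Ioi 0) := fun x hx y hy h => by
  rw [← pp_ss (mem_Ioi.1 hx), ← pp_ss (mem_Ioi.1 hy), h]

lemma cov_pp (g : ℝ → ℝ≥0∞) :
    ∫⁻ x in Ioi (0:ℝ), g x = ∫⁻ σ, ENNReal.ofReal |rr (pp σ)| * g (pp σ) := by
  have := lintegral_image_eq_lintegral_abs_deriv_mul (f := pp) (f' := fun σ => rr (pp σ))
    MeasurableSet.univ (fun σ _ => (hasDeriv_pp σ).hasDerivWithinAt) pp_inj.injOn g
  rw [pp_image, Measure.restrict_univ] at this
  exact this

lemma cov_ss (g : ℝ → ℝ≥0∞) :
    ∫⁻ σ, g σ = ∫⁻ x in Ioi (0:ℝ), ENNReal.ofReal |1 / rr x| * g (ss x) := by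
  have := lintegral_image_eq_lintegral_abs_deriv_mul (f := ss) (f' := fun x => 1 / rr x)
    measurableSet_Ioi (fun x hx => (hasDeriv_ss (mem_Ioi.1 hx)).hasDerivWithinAt) ss_inj g
  rw [ss_image, Measure.restrict_univ] at this
  exact this

lemma ss_le_iff {x c : ℝ} (hx : 0 < x) : ss x ≤ c ↔ x ≤ pp c := by
  have hmono : StrictMono pp := strictMono_of_deriv_pos fun σ => by
    rw [(hasDeriv_pp σ).deriv]; exact rr_pos (pp_pos σ)
  rw [← hmono.le_iff_le, pp_ss hx]

lemma pp_mono : StrictMono pp := strictMono_of_deriv_pos fun σ => by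
    rw [(hasDeriv_pp σ).deriv]; exact rr_pos (pp_pos σ)

lemma lint_zero_one : ∫⁻ x in Ioc (0:ℝ) 1, ENNReal.ofReal (1 / rr x) = ∞ := by
  have h := lintegral_image_eq_lintegral_abs_deriv_mul (f := ss) (f' := fun x => 1 / rr x)
    (s := Ioc 0 1) measurableSet_Ioc
    (fun x hx => (hasDeriv_ss hx.1).hasDerivWithinAt) (ss_inj.mono fun x hx => hx.1)
    (fun _ => 1)
  have e : ss '' Ioc 0 1 = Iic 0 := by
    ext σ
    constructor
    · rintro ⟨x, hx, rfl⟩
      rw [mem_Iic, ss_le_iff hx.1]
      simpa [pp] using hx.2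
    · intro hσ
      refine ⟨pp σ, ⟨pp_pos σ, ?_⟩, ss_pp σ⟩
      have : pp σ ≤ pp 0 := pp_mono.monotone hσ
      simpa [pp] using this
  rw [e, lintegral_one, Measure.restrict_apply_univ, Real.volume_Iic] at h
  rw [h]
  apply setLIntegral_congr_fun measurableSet_Ioc
  intro x hx
  simp only [mul_one]
  rw [abs_of_pos (one_div_pos.2 (rr_pos hx.1))]

lemma lint_one_infty : ∫⁻ x in Ioi (1:ℝ), ENNReal.ofReal (1 / rr x) = ∞ := by
  have h := lintegral_image_eq_lintegral_abs_deriv_mul (f := ss) (f' := fun x => 1 / rr x)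
    (s := Ioi 1) measurableSet_Ioi
    (fun x hx => (hasDeriv_ss (one_pos.trans (mem_Ioi.1 hx))).hasDerivWithinAt)
    (ss_inj.mono fun x hx => one_pos.trans (mem_Ioi.1 hx))
    (fun _ => 1)
  have e : ss '' Ioi 1 = Ioi 0 := by
    ext σ
    constructor
    · rintro ⟨x, hx, rfl⟩
      rw [mem_Ioi] at hx ⊢
      rw [← not_le, ss_le_iff (one_pos.trans hx)]
      simpa [pp] using hx
    · intro hσ
      refine ⟨pp σ, ?_, ss_pp σ⟩
      have : pp 0 < pp σ := pp_mono hσ
      simpa [pp] using this
  rw [e, lintegral_one, Measure.restrict_apply_univ, Real.volume_Ioi] at h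
  rw [h]
  apply setLIntegral_congr_fun measurableSet_Ioi
  intro x hx
  simp only [mul_one]
  rw [abs_of_pos (one_div_pos.2 (rr_pos (one_pos.trans (mem_Ioi.1 hx))))]

lemma inv_rr_cont : ContinuousOn (fun x => 1 / rr x) (Ioi 0) :=
  continuousOn_const.div rr_cont.continuousOn fun x hx => (rr_pos (mem_Ioi.1 hx)).ne'

lemma inv_rr_int {x y : ℝ} (hx : 0 < x) (hxy : x ≤ y) :
    IntervalIntegrable (fun x => 1 / rr x) volume x y := by
  apply ContinuousOn.intervalIntegrable
  rw [uIcc_of_le hxy]
  exact inv_rr_cont.mono fun z hz => lt_of_lt_of_le hx hz.1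

lemma int_inv_rr {x y : ℝ} (hx : 0 < x) (hxy : x ≤ y) :
    ∫ τ in x..y, 1 / rr τ = ss y - ss x := by
  apply intervalIntegral.integral_eq_sub_of_hasDerivAt
  · intro z hz
    rw [uIcc_of_le hxy] at hz
    exact hasDeriv_ss (lt_of_lt_of_le hx hz.1)
  · exact inv_rr_int hx hxy

lemma pp_one : pp 1 = Real.exp 1 := by
  rw [pp, if_neg (by norm_num)]

lemma aa_meas : Measurable aa := by
  unfold aa
  exact Measurable.ite (measurableSet_le measurable_const measurable_id) measurable_const
    measurable_const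

lemma aa_nonneg (x : ℝ) : 0 ≤ aa x := by unfold aa; split_ifs <;> norm_num

lemma aa_le (x : ℝ) : aa x ≤ 2 := by unfold aa; split_ifs <;> norm_num

lemma int_aa_rr {x y : ℝ} (hx : 0 < x) (hxy : x ≤ y) :
    ∫ τ in x..y, aa τ / rr τ = AA (ss y) - AA (ss x) := by
  have hAc : Continuous AA := by unfold AA; fun_prop
  apply integral_eq_of_hasDerivAt_off_countable (fun z => AA (ss z)) (fun τ => aa τ / rr τ)
    (countable_singleton (Real.exp 1))
  · intro z hz
    rw [uIcc_of_le hxy] at hz
    exact (hAc.continuousAt.comp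
      (hasDeriv_ss (lt_of_lt_of_le hx hz.1)).continuousAt).continuousWithinAt
  · intro z hz
    rw [min_eq_left hxy, max_eq_right hxy] at hz
    have hz0 : 0 < z := hx.trans hz.1.1
    have hze : z ≠ Real.exp 1 := hz.2
    rcases lt_or_gt_of_ne hze with h | h
    · have e : aa z / rr z = 0 := by
        rw [aa, if_neg (not_le.2 h), zero_div]
      rw [e]
      refine (hasDerivAt_const z (0:ℝ)).congr_of_eventuallyEq ?_
      filter_upwards [Iio_mem_nhds h, Ioi_mem_nhds hz0] with w hw hw0
      have : ss w ≤ 1 := by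
        rw [ss_le_iff (mem_Ioi.1 hw0), pp_one]; exact (mem_Iio.1 hw).le
      rw [AA, max_eq_right (by linarith), mul_zero]
    · have e : aa z / rr z = 2 * (1 / rr z) := by
        rw [aa, if_pos h.le]; ring
      rw [e]
      have h1 : HasDerivAt (fun z => 2 * (ss z - 1)) (2 * (1 / rr z)) z :=
        ((hasDeriv_ss hz0).sub_const 1).const_mul 2
      refine h1.congr_of_eventuallyEq ?_
      filter_upwards [Ioi_mem_nhds h, Ioi_mem_nhds hz0] with w hw hw0
      have : 1 ≤ ss w := by
        rw [← not_lt]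
        intro hcon
        have h2 := (ss_le_iff (mem_Ioi.1 hw0)).1 hcon.le
        rw [pp_one] at h2
        exact absurd (mem_Ioi.1 hw) (not_lt.2 h2)
      rw [AA, max_eq_left (by linarith)]
  · have h1 := inv_rr_int hx hxy
    have h2 : IntervalIntegrable (fun τ => aa τ * (1 / rr τ)) volume x y := by
      constructor
      · refine h1.1.bdd_mul (c := 2) aa_meas.aestronglyMeasurable ?_
        exact Eventually.of_forall fun z => by
          rw [Real.norm_of_nonneg (aa_nonneg z)]; exact aa_le z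
      · refine h1.2.bdd_mul (c := 2) aa_meas.aestronglyMeasurable ?_
        exact Eventually.of_forall fun z => by
          rw [Real.norm_of_nonneg (aa_nonneg z)]; exact aa_le z
    refine h2.congr ?_
    intro z _
    simp only
    ring

end Pool.Agent.V11111.GF
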