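import Pool.Agent.V11111.GF.Ops

/-!
# The fragmentation operator, the dual eigenfunction, positivity
-/

open Filter Topology MeasureTheory Set
open scoped ENNReal

namespace Pool.Agent.V11111.GF

/-! ### nonnegative functions -/

section Nn

variable {α : Type*} [MeasurableSpace α] {μ : Measure α}

/-- almost everywhere nonnegative -/
def Nn (f : Lp ℂ 1 μ) : Prop := ∀ᵐ x ∂μ, 0 ≤ (f x).re ∧ (f x).im = 0

lemma ind_bd (A : Set α) : ∀ x, |A.indicator (1 : α → ℝ) x| ≤ 1 := by
  intro x
  by_cases h : x ∈ A <;> simp [h]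

/-- the testing functionals -/
noncomputable def tf (μ : Measure α) (A : {A : Set α // MeasurableSet A}) : Lp ℂ 1 μ →L[ℂ] ℂ :=
  fnl μ (measurable_one.indicator A.2) (ind_bd A.1)

lemma tf_apply (A : {A : Set α // MeasurableSet A}) (f : Lp ℂ 1 μ) :
    tf μ A f = ∫ x in A.1, f x ∂μ := by
  rw [tf, fnl_apply, ← integral_indicator A.2]
  congr 1; funext x
  by_cases h : x ∈ A.1 <;> simp [h]

lemma tf_re (A : {A : Set α // MeasurableSet A}) (f : Lp ℂ 1 μ) :
    (tf μ A f).re = ∫ x in A.1, (f x).re ∂μ := by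
  rw [tf_apply]
  have hi : Integrable (fun x => f x) (μ.restrict A.1) := (L1.integrable_coeFn f).integrableOn
  exact (integral_re hi).symm

lemma tf_im (A : {A : Set α // MeasurableSet A}) (f : Lp ℂ 1 μ) :
    (tf μ A f).im = ∫ x in A.1, (f x).im ∂μ := by
  rw [tf_apply]
  have hi : Integrable (fun x => f x) (μ.restrict A.1) := (L1.integrable_coeFn f).integrableOn
  exact (integral_im hi).symm

lemma pz_iff (f : Lp ℂ 1 μ) : Pz (tf μ) f ↔ Nn f := by
  have hi : Integrable (fun x => f x) μ := L1.integrable_coeFn f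
  constructor
  · intro h
    have h1 : 0 ≤ᵐ[μ] fun x => (f x).re := by
      apply ae_nonneg_of_forall_setIntegral_nonneg hi.re
      intro s hs _
      have := (h ⟨s, hs⟩).1
      rw [tf_re] at this
      exact this
    have h2 : (fun x => (f x).im) =ᵐ[μ] 0 := by
      apply Integrable.ae_eq_zero_of_forall_setIntegral_eq_zero hi.im
      intro s hs _
      have := (h ⟨s, hs⟩).2
      rw [tf_im] at this
      exact this
    filter_upwards [h1, h2] with x e1 e2
    exact ⟨e1, e2⟩
  · intro h A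
    constructor
    · rw [tf_re]
      apply integral_nonneg_of_ae
      filter_upwards [ae_restrict_of_ae h] with x hx
      exact hx.1
    · rw [tf_im]
      apply integral_eq_zero_of_ae
      filter_upwards [ae_restrict_of_ae h] with x hx
      exact hx.2

end Nn

lemma wc_Nn {α β : Type*} [MeasurableSpace α] [MeasurableSpace β] {μ : Measure α} {ν : Measure β}
    {T : α → β} {w : α → ℝ} (h : WC μ ν T w) (hw : ∀ᵐ x ∂μ, 0 ≤ w x) {f : Lp ℂ 1 ν} (hf : Nn f) :
    Nn (wc h f) := by
  classical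
  set g : β → ℂ := fun y => if 0 ≤ (f y).re ∧ (f y).im = 0 then f y else 0 with hg
  have h1 : f =ᵐ[ν] g := by
    filter_upwards [hf] with y hy
    simp only [hg]
    rw [if_pos hy]
  have hgp : ∀ y, 0 ≤ (g y).re ∧ (g y).im = 0 := by
    intro y
    simp only [hg]
    split_ifs with h
    · exact h
    · simp
  filter_upwards [wc_ae h f, h.ae h1, hw] with x e1 e2 e3
  rw [e1, e2, Complex.re_ofReal_mul, Complex.im_ofReal_mul]
  exact ⟨mul_nonneg e3 (hgp _).1, by rw [(hgp _).2, mul_zero]⟩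

lemma Phi_Nn {f : X1} (hf : Nn f) : Nn (Phi f) :=
  wc_Nn hPhi (Eventually.of_forall fun σ => (mul_pos (rr_pos (pp_pos σ)) (pp_pos σ)).le) hf

lemma Psi_Nn {G : Y1} (hG : Nn G) : Nn (Psi G) := by
  refine wc_Nn hPsi ?_ hG
  filter_upwards [ae_mu1] with x hx
  exact (one_div_pos.2 (mul_pos (rr_pos hx) hx)).le

lemma Uy_Nn (t : ℝ) {G : Y1} (hG : Nn G) : Nn (Uy t G) :=
  wc_Nn (hT t) (Eventually.of_forall fun σ => (Real.exp_pos _).le) hG

lemma Ux_Nn (t : ℝ) {f : X1} (hf : Nn f) : Nn (Ux t f) := Psi_Nn (Uy_Nn t (Phi_Nn hf))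

/-! ### the fragmentation operator -/

/-- `2 · 1_{[0,1)}` -/
noncomputable def betaY : Y1 :=
  indicatorConstLp 1 (measurableSet_Ico : MeasurableSet (Ico (0:ℝ) 1))
    (by rw [Real.volume_Ico]; exact ENNReal.ofReal_ne_top) (2:ℂ)

lemma betaY_ae : betaY =ᵐ[volume] (Ico (0:ℝ) 1).indicator (fun _ => (2:ℂ)) :=
  indicatorConstLp_coeFn

/-- `∫_{σ ≥ 1}` -/
noncomputable def ellY : Y1 →L[ℂ] ℂ :=
  fnl volume (measurable_one.indicator (measurableSet_Ici : MeasurableSet (Ici (1:ℝ))))
    (ind_bd (Ici (1:ℝ)))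

lemma ellY_apply (G : Y1) : ellY G = ∫ σ in Ici (1:ℝ), G σ := by
  rw [ellY, fnl_apply, ← integral_indicator measurableSet_Ici]
  congr 1; funext x
  by_cases h : x ∈ Ici (1:ℝ)
  · rw [indicator_of_mem h, indicator_of_mem h]; simp
  · rw [indicator_of_notMem h, indicator_of_notMem h]; simp

/-- density of the dual eigenfunction -/
noncomputable def pE (σ : ℝ) : ℝ := Real.exp (NN σ - LL σ)

lemma pE_meas : Measurable pE := (Real.continuous_exp.comp (NN_cont.sub LL_cont)).measurable

lemma pE_bd (σ : ℝ) : |pE σ| ≤ 1 := by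
  unfold pE
  rw [abs_of_pos (Real.exp_pos _), Real.exp_le_one_iff]
  linarith [NN_le_LL σ]

/-- the dual eigenvector -/
noncomputable def EY : Y1 →L[ℂ] ℂ := fnl volume pE_meas pE_bd

lemma EY_apply (G : Y1) : EY G = ∫ σ, (pE σ : ℂ) * G σ := rfl

lemma exp_lip {a b : ℝ} (ha : a ≤ 1) (hb : b ≤ 1) :
    |Real.exp a - Real.exp b| ≤ Real.exp 1 * |a - b| := by
  have key : ∀ a b : ℝ, a ≤ 1 → b ≤ a → Real.exp a - Real.exp b ≤ Real.exp 1 * (a - b) := by
    intro a b ha hab
    have h1 := Real.one_sub_le_exp_neg (a - b)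
    have h2 : Real.exp b = Real.exp a * Real.exp (-(a - b)) := by
      rw [← Real.exp_add]; congr 1; ring
    have h3 : Real.exp a ≤ Real.exp 1 := Real.exp_le_exp.2 ha
    rw [h2]
    calc Real.exp a - Real.exp a * Real.exp (-(a - b)) =
          Real.exp a * (1 - Real.exp (-(a - b))) := by ring
      _ ≤ Real.exp a * (a - b) := mul_le_mul_of_nonneg_left (by linarith) (Real.exp_pos _).le
      _ ≤ Real.exp 1 * (a - b) := mul_le_mul_of_nonneg_right h3 (by linarith)
  rcases le_total a b with h | h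
  · rw [abs_sub_comm, abs_of_nonneg (by linarith [Real.exp_le_exp.2 h]), abs_sub_comm,
      abs_of_nonneg (by linarith)]
    exact key b a hb h
  · rw [abs_of_nonneg (by linarith [Real.exp_le_exp.2 h]), abs_of_nonneg (by linarith)]
    exact key a b ha h

/-- the integrand of `E (U t G)` -/
noncomputable def FE (G : Y1) (t σ : ℝ) : ℂ := ((Real.exp (NN (σ + t) - LL σ) : ℝ) : ℂ) * G σ

lemma EY_Uy (G : Y1) (t : ℝ) : EY (Uy t G) = ∫ σ, FE G t σ := by
  rw [EY_apply]
  have h1 : ∫ σ, (pE σ : ℂ) * (Uy t G) σ = ∫ σ, FE G t (σ - t) := by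
    apply integral_congr_ae
    filter_upwards [wc_ae (hT t) G] with σ e
    have e' : (Uy t G) σ = (tw t σ : ℂ) * G (σ - t) := e
    rw [e', ← mul_assoc, ← Complex.ofReal_mul, FE, sub_add_cancel]
    congr 2
    rw [pE, tw, ← Real.exp_add]
    congr 1; ring
  rw [h1]
  exact integral_sub_right_eq_self (fun σ => FE G t σ) t

lemma FE_meas (G : Y1) (t : ℝ) : AEStronglyMeasurable (FE G t) volume := by
  unfold FE
  have h : Continuous (fun σ : ℝ => ((Real.exp (NN (σ + t) - LL σ) : ℝ) : ℂ)) :=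
    Complex.continuous_ofReal.comp (Real.continuous_exp.comp
      ((NN_cont.comp (continuous_id.add continuous_const)).sub LL_cont))
  exact h.aestronglyMeasurable.mul (Lp.aestronglyMeasurable G)

/-- sign -/
noncomputable def sg (σ : ℝ) : ℝ := 1 - 2 * (Ici (1:ℝ)).indicator 1 σ

lemma NN_deriv {σ : ℝ} (h : σ ≠ 1) : HasDerivAt (fun t : ℝ => NN (σ + t)) (sg σ) 0 := by
  rcases lt_or_gt_of_ne h with h | h
  · have e : sg σ = 1 := by
      rw [sg, indicator_of_notMem (by simpa using h)]; ring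
    rw [e]
    have h1 : HasDerivAt (fun t : ℝ => σ + t) 1 0 := (hasDerivAt_id 0).const_add σ
    refine h1.congr_of_eventuallyEq ?_
    filter_upwards [Iio_mem_nhds (by linarith : (0:ℝ) < 1 - σ)] with t ht
    rw [NN, min_eq_left]
    linarith [mem_Iio.1 ht]
  · have e : sg σ = -1 := by
      rw [sg, indicator_of_mem (by simpa using h.le)]; simp; norm_num
    rw [e]
    have h1 : HasDerivAt (fun t : ℝ => 2 - (σ + t)) (-1) 0 :=
      ((hasDerivAt_id 0).const_add σ).const_sub 2
    refine h1.congr_of_eventuallyEq ?_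
    filter_upwards [Ioi_mem_nhds (by linarith : 1 - σ < 0)] with t ht
    rw [NN, min_eq_right]
    linarith [mem_Ioi.1 ht]

lemma EY_deriv (G : Y1) :
    HasDerivAt (fun t : ℝ => EY (Uy t G)) (EY G - 2 * ellY G) 0 := by
  have hGi : Integrable (fun σ => G σ) volume := L1.integrable_coeFn G
  have h := hasDerivAt_integral_of_dominated_loc_of_lip (𝕜 := ℝ) (μ := (volume : Measure ℝ))
    (F := FE G) (F' := fun σ => ((sg σ * pE σ : ℝ) : ℂ) * G σ) (x₀ := (0:ℝ))
    (s := Metric.ball 0 1) (bound := fun σ => Real.exp 1 * ‖G σ‖)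
    (Metric.ball_mem_nhds _ one_pos) (Eventually.of_forall fun t => FE_meas G t)
    (by
      have := int_mul (μ := volume) pE_meas pE_bd G
      refine this.congr (Eventually.of_forall fun σ => ?_)
      simp only [FE, add_zero, pE])
    (by
      have hm : Measurable (fun σ => ((sg σ * pE σ : ℝ) : ℂ)) := by
        apply Complex.measurable_ofReal.comp
        exact (measurable_const.sub (measurable_const.mul
          (measurable_one.indicator measurableSet_Ici))).mul pE_meas
      exact hm.aestronglyMeasurable.mul (Lp.aestronglyMeasurable G))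
    (by
      refine Eventually.of_forall fun σ => ?_
      apply LipschitzOnWith.of_dist_le_mul
      intro s hs t ht
      rw [mem_ball_zero_iff, Real.norm_eq_abs] at hs ht
      have hb : ∀ t : ℝ, |t| < 1 → NN (σ + t) - LL σ ≤ 1 := by
        intro t ht
        have h1 := NN_lip (σ + t) σ
        rw [add_sub_cancel_left] at h1
        have h2 := NN_le_LL σ
        have h3 := le_abs_self (NN (σ + t) - NN σ)
        linarith
      have h2 := exp_lip (hb s hs) (hb t ht)
      have h3 : |NN (σ + s) - LL σ - (NN (σ + t) - LL σ)| ≤ |s - t| := by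
        have := NN_lip (σ + s) (σ + t)
        rw [sub_sub_sub_cancel_right]
        rwa [add_sub_add_left_eq_sub] at this
      have hnn : ((Real.nnabs (Real.exp 1 * ‖G σ‖) : NNReal) : ℝ) = Real.exp 1 * ‖G σ‖ := by
        rw [Real.coe_nnabs, abs_of_nonneg (by positivity)]
      rw [hnn, dist_eq_norm, Real.dist_eq, FE, FE, ← sub_mul, ← Complex.ofReal_sub, norm_mul,
        Complex.norm_real, Real.norm_eq_abs]
      calc |Real.exp (NN (σ + s) - LL σ) - Real.exp (NN (σ + t) - LL σ)| * ‖G σ‖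
          ≤ (Real.exp 1 * |s - t|) * ‖G σ‖ := by
            refine mul_le_mul_of_nonneg_right (h2.trans ?_) (norm_nonneg _)
            exact mul_le_mul_of_nonneg_left h3 (Real.exp_pos _).le
        _ = Real.exp 1 * ‖G σ‖ * |s - t| := by ring)
    (hGi.norm.const_mul _)
    (by
      have h1 : ∀ᵐ σ : ℝ, σ ≠ 1 := by
        have : (volume : Measure ℝ) {1} = 0 := Real.volume_singleton
        exact compl_mem_ae_iff.2 this
      filter_upwards [h1] with σ hσ
      have h2 := ((NN_deriv hσ).sub_const (LL σ)).exp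
      have h3 := (h2.ofReal_comp).mul_const (G σ)
      refine h3.congr_deriv ?_
      rw [add_zero, pE]
      push_cast
      ring)
  have h2 := h.2
  have e1 : (fun t => ∫ σ, FE G t σ) = fun t => EY (Uy t G) := by
    funext t; rw [EY_Uy]
  rw [e1] at h2
  refine h2.congr_deriv ?_
  have e2 : ellY G = ∫ σ, (((Ici (1:ℝ)).indicator 1 σ : ℝ) : ℂ) * G σ := rfl
  rw [EY_apply, e2, ← integral_const_mul, ← integral_sub (int_mul pE_meas pE_bd G)
    ((int_mul (measurable_one.indicator measurableSet_Ici) (ind_bd (Ici (1:ℝ))) G).const_mul 2)]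
  congr 1; funext σ
  rw [sg]
  by_cases hσ : σ ∈ Ici (1:ℝ)
  · have : pE σ = 1 := by
      rw [pE, NN_eq_LL (by linarith [mem_Ici.1 hσ])]; simp
    rw [this, indicator_of_mem hσ]
    push_cast
    simp
    ring
  · rw [indicator_of_notMem hσ]
    push_cast
    simp

lemma EY_beta : EY betaY = 2 := by
  rw [EY_apply]
  have : ∫ σ, (pE σ : ℂ) * betaY σ = ∫ σ, (Ico (0:ℝ) 1).indicator (fun _ => (2:ℂ)) σ := by
    apply integral_congr_ae
    filter_upwards [betaY_ae] with σ e
    rw [e]
    by_cases h : σ ∈ Ico (0:ℝ) 1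
    · rw [indicator_of_mem h]
      have : pE σ = 1 := by rw [pE, NN_eq_LL h.1]; simp
      rw [this]; simp
    · rw [indicator_of_notMem h]; simp
  rw [this, integral_indicator measurableSet_Ico]
  simp

/-- the fragmentation operator on `X₁` -/
noncomputable def BX : X1 →L[ℂ] X1 := (ellY.comp Phi).smulRight (Psi betaY)

/-- the dual eigenvector on `X₁` -/
noncomputable def EX : X1 →L[ℂ] ℂ := EY.comp Phi

lemma EX_lim (f : X1) : Tendsto (fun h : ℝ => (h⁻¹ : ℂ) • (EX (Ux h f) - EX f)) (𝓝[>] 0)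
      (𝓝 (EX f - EX (BX f))) := by
  have h1 := (EY_deriv (Phi f)).tendsto_slope_zero_right
  have e1 : EX f - EX (BX f) = EY (Phi f) - 2 * ellY (Phi f) := by
    rw [EX, BX, ContinuousLinearMap.comp_apply, ContinuousLinearMap.comp_apply,
      ContinuousLinearMap.smulRight_apply, map_smul, Phi_Psi, map_smul, EY_beta,
      ContinuousLinearMap.comp_apply, smul_eq_mul]
    ring
  rw [e1]
  refine h1.congr fun h => ?_
  rw [zero_add, Uy_zero]
  rw [EX, ContinuousLinearMap.comp_apply, ContinuousLinearMap.comp_apply, Ux_apply, Phi_Psi,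
    Complex.real_smul, Complex.ofReal_inv, smul_eq_mul]
  rfl

lemma EX_ne : EX (Psi betaY) ≠ 0 := by
  rw [EX, ContinuousLinearMap.comp_apply, Phi_Psi, EY_beta]
  norm_num

lemma beta_Nn : Nn (Psi betaY) := by
  apply Psi_Nn
  filter_upwards [betaY_ae] with σ e
  rw [e]
  by_cases h : σ ∈ Ico (0:ℝ) 1
  · rw [indicator_of_mem h]; simp
  · rw [indicator_of_notMem h]; simp

lemma BX_Nn {f : X1} (hf : Nn f) : Nn (BX f) := by
  have h1 : 0 ≤ (ellY (Phi f)).re ∧ (ellY (Phi f)).im = 0 := by
    have h2 := (pz_iff (Phi f)).2 (Phi_Nn hf) ⟨Ici 1, measurableSet_Ici⟩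
    exact h2
  have e : BX f = ((ellY (Phi f)).re : ℂ) • Psi betaY := by
    rw [BX, ContinuousLinearMap.smulRight_apply, ContinuousLinearMap.comp_apply]
    congr 1
    apply Complex.ext
    · simp
    · simp [h1.2]
  rw [e]
  rw [← pz_iff]
  exact Pz.smul _ ((pz_iff _).2 beta_Nn) h1.1

/-! ### the formula for `B` -/

/-- kernel profile -/
noncomputable def phi (x : ℝ) : ℝ := (Ico (1:ℝ) (Real.exp 1)).indicator (fun x => 1 / x ^ 2) x

/-- the fragmentation kernel -/
noncomputable def bb (x y : ℝ) : ℝ := if y < Real.exp 1 then 2 / y else y * phi x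

lemma phi_nonneg (x : ℝ) : 0 ≤ phi x := by
  unfold phi
  apply indicator_nonneg
  intro x _
  positivity

lemma aa_bb (x y : ℝ) : aa y * bb x y = (Ici (Real.exp 1)).indicator (fun y => 2 * phi x * y) y := by
  by_cases h : Real.exp 1 ≤ y
  · rw [aa, if_pos h, bb, if_neg (not_lt.2 h), indicator_of_mem (mem_Ici.2 h)]; ring
  · rw [aa, if_neg h, indicator_of_notMem (by simpa using h), zero_mul]

lemma int_mu1 (F : ℝ → ℂ) : ∫ x, F x ∂mu1 = ∫ x in Ioi (0:ℝ), (x : ℂ) * F x := by
  unfold mu1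
  rw [integral_withDensity_eq_integral_toReal_smul ENNReal.measurable_ofReal
    (Eventually.of_forall fun x => ENNReal.ofReal_lt_top)]
  apply setIntegral_congr_fun measurableSet_Ioi
  intro x hx
  simp only
  rw [ENNReal.toReal_ofReal (le_of_lt hx), Complex.real_smul]

lemma integrableOn_mul (f : X1) : IntegrableOn (fun x : ℝ => (x : ℂ) * f x) (Ioi 0) := by
  have h1 : Integrable (fun x => f x) mu1 := L1.integrable_coeFn f
  unfold mu1 at h1
  rw [integrable_withDensity_iff_integrable_smul' ENNReal.measurable_ofReal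
    (Eventually.of_forall fun x => ENNReal.ofReal_lt_top)] at h1
  refine IntegrableOn.congr_fun h1 ?_ measurableSet_Ioi
  intro x hx
  simp only
  rw [ENNReal.toReal_ofReal (le_of_lt hx), Complex.real_smul]
  rfl

lemma ell_eq (f : X1) : ellY (Phi f) = ∫ x in Ici (Real.exp 1), (x : ℂ) * f x := by
  rw [ellY_apply]
  have h := integral_image_eq_integral_abs_deriv_smul (f := pp) (f' := fun σ => rr (pp σ))
    (s := Ici (1:ℝ)) measurableSet_Ici (fun σ _ => (hasDeriv_pp σ).hasDerivWithinAt)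
    pp_inj.injOn (fun x => (x : ℂ) * f x)
  have e : pp '' Ici 1 = Ici (Real.exp 1) := by
    ext x
    constructor
    · rintro ⟨σ, hσ, rfl⟩
      rw [mem_Ici, ← pp_one]
      exact pp_mono.monotone hσ
    · intro hx
      rw [mem_Ici] at hx
      have hx0 : 0 < x := (Real.exp_pos 1).trans_le hx
      refine ⟨ss x, ?_, pp_ss hx0⟩
      rw [mem_Ici, ← pp_mono.le_iff_le, pp_one, pp_ss hx0]
      exact hx
  rw [e] at h
  rw [h]
  apply setIntegral_congr_ae measurableSet_Ici
  filter_upwards [wc_ae hPhi f] with σ e _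
  have e' : (Phi f) σ = (wPhi σ : ℂ) * f (pp σ) := e
  rw [e', Complex.real_smul, abs_of_pos (rr_pos (pp_pos σ)), wPhi]
  push_cast
  ring

lemma psi_beta_ae : ∀ᵐ x ∂mu1, (Psi betaY) x = ((2 * phi x : ℝ) : ℂ) := by
  filter_upwards [wc_ae hPsi betaY, hPsi.ae betaY_ae, ae_mu1] with x e1 e2 hx
  have e3 : (Psi betaY) x = (wPsi x : ℂ) * betaY (ss x) := e1
  rw [e3, e2]
  by_cases h : x ∈ Ico 1 (Real.exp 1)
  · have h1 : ss x ∈ Ico (0:ℝ) 1 := by
      rw [ss]
      split_ifs with h2
      · have : x = 1 := le_antisymm h2 h.1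
        rw [this]; simp
      · refine ⟨Real.log_nonneg h.1, ?_⟩
        rw [Real.log_lt_iff_lt_exp hx]
        exact h.2
    rw [indicator_of_mem h1, phi, indicator_of_mem h, wPsi]
    have h3 : rr x = x := by rw [rr, min_eq_right]; nlinarith [h.1]
    rw [h3]
    push_cast
    rw [pow_two]
    ring
  · have h1 : ss x ∉ Ico (0:ℝ) 1 := by
      intro hcon
      apply h
      have h2 := pp_mono.monotone hcon.1
      have h3 := pp_mono hcon.2
      rw [pp_ss hx] at h2 h3
      rw [pp_one] at h3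
      refine ⟨?_, h3⟩
      simpa [pp] using h2
    rw [indicator_of_notMem h1, phi, indicator_of_notMem h]
    simp

lemma BX_ae (f : X1) : ∀ᵐ x ∂mu1, IntegrableOn (fun y => ((aa y * bb x y : ℝ) : ℂ) * f y) (Ioi x) ∧
    BX f x = ∫ y in Ioi x, ((aa y * bb x y : ℝ) : ℂ) * f y := by
  have h1 : ∀ᵐ x ∂mu1, BX f x = ellY (Phi f) * (Psi betaY) x := by
    have : BX f = ellY (Phi f) • Psi betaY := rfl
    rw [this]
    filter_upwards [Lp.coeFn_smul (ellY (Phi f)) (Psi betaY)] with x hx
    rw [hx, Pi.smul_apply, smul_eq_mul]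
  have hint := integrableOn_mul f
  filter_upwards [h1, psi_beta_ae, ae_mu1] with x e1 e2 hx
  have e3 : (fun y => ((aa y * bb x y : ℝ) : ℂ) * f y) =
      (Ici (Real.exp 1)).indicator (fun y => ((2 * phi x : ℝ) : ℂ) * ((y : ℂ) * f y)) := by
    funext y
    rw [aa_bb]
    by_cases h : y ∈ Ici (Real.exp 1)
    · rw [indicator_of_mem h, indicator_of_mem h]; push_cast; ring
    · rw [indicator_of_notMem h, indicator_of_notMem h]; simp
  rw [e3]
  constructor
  · apply Integrable.indicator _ measurableSet_Ici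
    exact (hint.mono_set (Ioi_subset_Ioi hx.le)).const_mul _
  · rw [e1, e2, ell_eq, setIntegral_indicator measurableSet_Ici]
    by_cases h : x ∈ Ico 1 (Real.exp 1)
    · have e4 : Ioi x ∩ Ici (Real.exp 1) = Ici (Real.exp 1) := by
        apply inter_eq_right.2
        intro y hy
        exact lt_of_lt_of_le h.2 hy
      rw [e4, integral_const_mul]
      ring
    · rw [phi, indicator_of_notMem h]
      simp

end Pool.Agent.V11111.GF
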