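import Mathlib

/-!
# Weighted composition operators on `L¹`
-/

open Filter Topology MeasureTheory Set
open scoped ENNReal

namespace Pool.Agent.V11111.GF

variable {α β : Type*} [MeasurableSpace α] [MeasurableSpace β] {μ : Measure α} {ν : Measure β}
  {T : α → β} {w : α → ℝ}

/-- the basic inequality with constant `C` -/
def LeC (μ : Measure α) (ν : Measure β) (T : α → β) (w : α → ℝ) (C : ℝ) : Prop :=
  ∀ g : β → ℝ≥0∞, Measurable g →
    ∫⁻ x, ENNReal.ofReal |w x| * g (T x) ∂μ ≤ ENNReal.ofReal C * ∫⁻ y, g y ∂ν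

/-- admissible weighted composition -/
structure WC (μ : Measure α) (ν : Measure β) (T : α → β) (w : α → ℝ) : Prop where
  mT : Measurable T
  mw : Measurable w
  bd : ∃ C : ℝ, 0 ≤ C ∧ LeC μ ν T w C

lemma WC.ae (h : WC μ ν T w) {f g : β → ℂ} (hfg : f =ᵐ[ν] g) :
    (fun x => (w x : ℂ) * f (T x)) =ᵐ[μ] fun x => (w x : ℂ) * g (T x) := by
  obtain ⟨C, hC0, hC⟩ := h.bd
  obtain ⟨N, hN1, hN2, hN3⟩ := exists_measurable_superset_of_null (ae_iff.1 hfg)
  have h1 := hC (N.indicator 1) (measurable_one.indicator hN2)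
  rw [lintegral_indicator_one hN2, hN3, mul_zero] at h1
  have h2 : ∫⁻ x, ENNReal.ofReal |w x| * N.indicator 1 (T x) ∂μ = 0 := le_antisymm h1 zero_le
  have hm : Measurable (fun x => ENNReal.ofReal |w x| * N.indicator (1 : β → ℝ≥0∞) (T x)) :=
    ((h.mw.abs).ennreal_ofReal).mul ((measurable_one.indicator hN2).comp h.mT)
  rw [lintegral_eq_zero_iff hm] at h2
  filter_upwards [h2] with x hx
  by_cases hw : w x = 0
  · simp [hw]
  · by_cases hT : T x ∈ N
    · exfalso
      simp only [hT, indicator_of_mem, Pi.one_apply, mul_one, Pi.zero_apply,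
        ENNReal.ofReal_eq_zero] at hx
      exact hw (abs_nonpos_iff.1 hx)
    · have : ¬ (T x ∈ {a | ¬ f a = g a}) := fun h => hT (hN1 h)
      have e : f (T x) = g (T x) := by
        by_contra hne
        exact this hne
      rw [e]

lemma lint_eq (w : α → ℝ) (f : β → ℂ) (x : α) :
    ‖(w x : ℂ) * f (T x)‖ₑ = ENNReal.ofReal |w x| * ‖f (T x)‖ₑ := by
  rw [enorm_mul]
  congr 1
  rw [← ofReal_norm, Complex.norm_real, Real.norm_eq_abs]

lemma eLp_le {C : ℝ} (hC : LeC μ ν T w C) (f : Lp ℂ 1 ν) :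
    eLpNorm (fun x => (w x : ℂ) * f (T x)) 1 μ ≤ ENNReal.ofReal C * eLpNorm f 1 ν := by
  rw [eLpNorm_one_eq_lintegral_enorm, eLpNorm_one_eq_lintegral_enorm]
  have := hC (fun y => ‖f y‖ₑ) (Lp.stronglyMeasurable f).enorm
  refine le_trans (le_of_eq ?_) this
  apply lintegral_congr
  intro x
  exact lint_eq w f x

lemma WC.memLp (h : WC μ ν T w) (f : Lp ℂ 1 ν) :
    MemLp (fun x => (w x : ℂ) * f (T x)) 1 μ := by
  obtain ⟨C, hC0, hC⟩ := h.bd
  refine ⟨?_, ?_⟩
  · exact ((Complex.measurable_ofReal.comp h.mw).stronglyMeasurable.mul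
      ((Lp.stronglyMeasurable f).comp_measurable h.mT)).aestronglyMeasurable
  · exact (eLp_le hC f).trans_lt (ENNReal.mul_lt_top ENNReal.ofReal_lt_top (Lp.eLpNorm_lt_top f))

lemma norm_le_aux {C : ℝ} (hC0 : 0 ≤ C) (hC : LeC μ ν T w C) (f : Lp ℂ 1 ν)
    (hm : MemLp (fun x => (w x : ℂ) * f (T x)) 1 μ) : ‖hm.toLp‖ ≤ C * ‖f‖ := by
  rw [Lp.norm_toLp, Lp.norm_def]
  have h1 := eLp_le hC f
  have h2 : ENNReal.ofReal C * eLpNorm f 1 ν ≠ ∞ :=
    (ENNReal.mul_lt_top ENNReal.ofReal_lt_top (Lp.eLpNorm_lt_top f)).ne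
  calc (eLpNorm (fun x => (w x : ℂ) * f (T x)) 1 μ).toReal ≤
        (ENNReal.ofReal C * eLpNorm f 1 ν).toReal := ENNReal.toReal_mono h2 h1
    _ = C * (eLpNorm f 1 ν).toReal := by rw [ENNReal.toReal_mul, ENNReal.toReal_ofReal hC0]

/-- the weighted composition operator `f ↦ w • f ∘ T` -/
noncomputable def wc (h : WC μ ν T w) : Lp ℂ 1 ν →L[ℂ] Lp ℂ 1 μ :=
  LinearMap.mkContinuousOfExistsBound
    { toFun := fun f => (h.memLp f).toLp
      map_add' := by
        intro f g
        apply Lp.ext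
        refine (MemLp.coeFn_toLp _).trans ?_
        refine (h.ae (Lp.coeFn_add f g)).trans ?_
        refine EventuallyEq.trans ?_ (Lp.coeFn_add _ _).symm
        filter_upwards [MemLp.coeFn_toLp (h.memLp f), MemLp.coeFn_toLp (h.memLp g)] with x h1 h2
        rw [Pi.add_apply, Pi.add_apply, h1, h2, mul_add]
      map_smul' := by
        intro c f
        apply Lp.ext
        refine (MemLp.coeFn_toLp _).trans ?_
        refine (h.ae (Lp.coeFn_smul c f)).trans ?_
        refine EventuallyEq.trans ?_ (Lp.coeFn_smul _ _).symm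
        filter_upwards [MemLp.coeFn_toLp (h.memLp f)] with x h1
        rw [Pi.smul_apply, Pi.smul_apply, RingHom.id_apply, h1, smul_eq_mul, smul_eq_mul]
        ring }
    (by
      obtain ⟨C, hC0, hC⟩ := h.bd
      exact ⟨C, fun f => norm_le_aux hC0 hC f (h.memLp f)⟩)

lemma wc_ae (h : WC μ ν T w) (f : Lp ℂ 1 ν) :
    wc h f =ᵐ[μ] fun x => (w x : ℂ) * f (T x) := MemLp.coeFn_toLp (h.memLp f)

lemma wc_norm (h : WC μ ν T w) {C : ℝ} (hC0 : 0 ≤ C) (hC : LeC μ ν T w C) : ‖wc h‖ ≤ C :=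
  ContinuousLinearMap.opNorm_le_bound _ hC0 fun f => norm_le_aux hC0 hC f (h.memLp f)

/-- the functional `f ↦ ∫ ψ f` for bounded measurable `ψ` -/
lemma int_mul {ψ : α → ℝ} (hψ : Measurable ψ) {C : ℝ} (hC : ∀ x, |ψ x| ≤ C) (f : Lp ℂ 1 μ) :
    Integrable (fun x => (ψ x : ℂ) * f x) μ := by
  have h1 : Integrable (fun x => f x) μ := L1.integrable_coeFn f
  refine h1.bdd_mul (c := C) ?_ ?_
  · exact (Complex.measurable_ofReal.comp hψ).aestronglyMeasurable
  · refine Eventually.of_forall fun x => ?_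
    rw [Complex.norm_real, Real.norm_eq_abs]
    exact hC x

/-- the functional `f ↦ ∫ ψ f` for bounded measurable `ψ` -/
noncomputable def fnl (μ : Measure α) {ψ : α → ℝ} (hψ : Measurable ψ) {C : ℝ}
    (hC : ∀ x, |ψ x| ≤ C) : Lp ℂ 1 μ →L[ℂ] ℂ :=
  LinearMap.mkContinuous
    { toFun := fun f => ∫ x, (ψ x : ℂ) * f x ∂μ
      map_add' := by
        intro f g
        rw [← integral_add (int_mul hψ hC f) (int_mul hψ hC g)]
        apply integral_congr_ae
        filter_upwards [Lp.coeFn_add f g] with x hx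
        rw [hx, Pi.add_apply, mul_add]
      map_smul' := by
        intro c f
        rw [RingHom.id_apply, smul_eq_mul, ← integral_const_mul]
        apply integral_congr_ae
        filter_upwards [Lp.coeFn_smul c f] with x hx
        rw [hx, Pi.smul_apply, smul_eq_mul]
        ring }
    C
    (by
      intro f
      have h2 : ‖∫ x, (ψ x : ℂ) * f x ∂μ‖ ≤ ∫ x, C * ‖f x‖ ∂μ := by
        apply norm_integral_le_of_norm_le
        · exact (L1.integrable_coeFn f).norm.const_mul C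
        · refine Eventually.of_forall fun x => ?_
          rw [norm_mul, Complex.norm_real, Real.norm_eq_abs]
          exact mul_le_mul_of_nonneg_right (hC x) (norm_nonneg _)
      refine h2.trans (le_of_eq ?_)
      rw [integral_const_mul, L1.norm_eq_integral_norm])

lemma fnl_apply {ψ : α → ℝ} (hψ : Measurable ψ) {C : ℝ} (hC : ∀ x, |ψ x| ≤ C) (f : Lp ℂ 1 μ) :
    fnl μ hψ hC f = ∫ x, (ψ x : ℂ) * f x ∂μ := rfl

end Pool.Agent.V11111.GF
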