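import Pool.Agent.V11111.GF.Abs2
import Pool.Agent.V11111.GF.Wc
import Pool.Agent.V11111.GF.Flow

/-!
# The transport group on `L¹((0, ∞), x dx)`
-/

open Filter Topology MeasureTheory Set
open scoped ENNReal

namespace Pool.Agent.V11111.GF

/-- the measure `x dx` on `(0, ∞)` -/
noncomputable def mu1 : Measure ℝ :=
  (volume.restrict (Ioi 0)).withDensity (fun x => ENNReal.ofReal x)

lemma lint_mu1 {g : ℝ → ℝ≥0∞} (hg : Measurable g) :
    ∫⁻ x, g x ∂mu1 = ∫⁻ x in Ioi (0:ℝ), ENNReal.ofReal x * g x := by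
  unfold mu1
  rw [lintegral_withDensity_eq_lintegral_mul _ ENNReal.measurable_ofReal hg]
  rfl

lemma ae_mu1 : ∀ᵐ x ∂mu1, 0 < x := by
  have h1 : mu1 ≪ volume.restrict (Ioi (0:ℝ)) := withDensity_absolutelyContinuous _ _
  exact h1.ae_le (ae_restrict_mem measurableSet_Ioi)

/-- weight of `Phi` -/
noncomputable def wPhi (σ : ℝ) : ℝ := rr (pp σ) * pp σ
/-- weight of `Psi` -/
noncomputable def wPsi (x : ℝ) : ℝ := 1 / (rr x * x)

lemma hPhiC : LeC volume mu1 pp wPhi 1 := by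
  intro g hg
  rw [ENNReal.ofReal_one, one_mul, lint_mu1 hg, cov_pp]
  apply le_of_eq
  apply lintegral_congr
  intro σ
  rw [wPhi, abs_mul, ENNReal.ofReal_mul (abs_nonneg _), abs_of_pos (pp_pos σ), mul_assoc]

lemma hPhi : WC volume mu1 pp wPhi where
  mT := pp_meas
  mw := (rr_meas.comp pp_meas).mul pp_meas
  bd := ⟨1, zero_le_one, hPhiC⟩

lemma wPsi_meas : Measurable wPsi := measurable_const.div (rr_meas.mul measurable_id)

lemma hPsiC : LeC mu1 volume ss wPsi 1 := by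
  intro g hg
  have hm : Measurable (fun x => ENNReal.ofReal |wPsi x| * g (ss x)) :=
    (wPsi_meas.abs.ennreal_ofReal).mul (hg.comp ss_meas)
  rw [ENNReal.ofReal_one, one_mul, lint_mu1 hm, cov_ss]
  apply le_of_eq
  apply setLIntegral_congr_fun measurableSet_Ioi
  intro x hx
  have hx' : 0 < x := hx
  simp only
  rw [← mul_assoc, ← ENNReal.ofReal_mul hx'.le]
  congr 2
  rw [wPsi, abs_of_pos (one_div_pos.2 (mul_pos (rr_pos hx') hx')),
    abs_of_pos (one_div_pos.2 (rr_pos hx'))]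
  have := (rr_pos hx').ne'
  field_simp

lemma hPsi : WC mu1 volume ss wPsi where
  mT := ss_meas
  mw := wPsi_meas
  bd := ⟨1, zero_le_one, hPsiC⟩

/-- `X₁` -/
abbrev X1 : Type := Lp ℂ 1 mu1
/-- `L¹(ℝ)` -/
abbrev Y1 : Type := Lp ℂ 1 (volume : Measure ℝ)

/-- the isometry onto `L¹(ℝ)` -/
noncomputable def Phi : X1 →L[ℂ] Y1 := wc hPhi
/-- its inverse -/
noncomputable def Psi : Y1 →L[ℂ] X1 := wc hPsi

lemma w_mul (σ : ℝ) : wPhi σ * wPsi (pp σ) = 1 := by
  have h1 := (rr_pos (pp_pos σ)).ne'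
  have h2 := (pp_pos σ).ne'
  unfold wPhi wPsi
  field_simp

lemma Phi_Psi (G : Y1) : Phi (Psi G) = G := by
  apply Lp.ext
  refine (wc_ae hPhi (Psi G)).trans ?_
  refine (hPhi.ae (wc_ae hPsi G)).trans ?_
  refine Eventually.of_forall fun σ => ?_
  simp only
  rw [ss_pp, ← mul_assoc, ← Complex.ofReal_mul, w_mul]
  simp

lemma Psi_Phi (f : X1) : Psi (Phi f) = f := by
  apply Lp.ext
  refine (wc_ae hPsi (Phi f)).trans ?_
  refine (hPsi.ae (wc_ae hPhi f)).trans ?_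
  filter_upwards [ae_mu1] with x hx
  have h := w_mul (ss x)
  rw [pp_ss hx] at h ⊢
  rw [← mul_assoc, ← Complex.ofReal_mul, mul_comm (wPsi x), h]
  simp

lemma Phi_norm : ‖Phi‖ ≤ 1 := wc_norm hPhi zero_le_one hPhiC
lemma Psi_norm : ‖Psi‖ ≤ 1 := wc_norm hPsi zero_le_one hPsiC

/-- weight of the transport -/
noncomputable def tw (t σ : ℝ) : ℝ := Real.exp (LL σ - LL (σ - t))

lemma tw_meas (t : ℝ) : Measurable (tw t) := by
  have h : Continuous (tw t) := by
    unfold tw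
    exact Real.continuous_exp.comp
      (LL_cont.sub (LL_cont.comp (continuous_id.sub continuous_const)))
  exact h.measurable

lemma LeC_trans {t C : ℝ} {w : ℝ → ℝ} (hC : ∀ σ, |w σ| ≤ C) :
    LeC volume volume (fun σ => σ - t) w C := by
  intro g hg
  rw [← lintegral_const_mul _ hg]
  have h1 : ∫⁻ σ, ENNReal.ofReal C * g σ = ∫⁻ σ, ENNReal.ofReal C * g (σ - t) :=
    (lintegral_sub_right_eq_self (fun σ => ENNReal.ofReal C * g σ) t).symm
  rw [h1]
  apply lintegral_mono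
  intro σ
  simp only
  gcongr
  exact hC σ

lemma tw_le (t σ : ℝ) : |tw t σ| ≤ Real.exp |t| := by
  unfold tw
  rw [abs_of_pos (Real.exp_pos _)]
  apply Real.exp_le_exp.2
  have := LL_lip σ (σ - t)
  rw [sub_sub_cancel] at this
  exact (le_abs_self _).trans this

lemma tw_le' {t : ℝ} (ht : 0 ≤ t) (σ : ℝ) : |tw t σ| ≤ Real.exp 1 * (1 + t) := by
  unfold tw
  rw [abs_of_pos (Real.exp_pos _)]
  have h := LL_growth (σ - t) t ht
  rw [sub_add_cancel] at h
  calc Real.exp (LL σ - LL (σ - t)) ≤ Real.exp (1 + Real.log (1 + t)) := Real.exp_le_exp.2 h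
    _ = Real.exp 1 * (1 + t) := by rw [Real.exp_add, Real.exp_log (by linarith)]

lemma tw_sub (t σ : ℝ) : |tw t σ - 1| ≤ Real.exp |t| - 1 := by
  have h := LL_lip σ (σ - t)
  rw [sub_sub_cancel] at h
  unfold tw
  set a := LL σ - LL (σ - t)
  rw [abs_le] at h
  rw [abs_le]
  constructor
  · have h1 : Real.exp (-|t|) ≤ Real.exp a := Real.exp_le_exp.2 h.1
    have h2 := Real.add_one_le_exp (|t|)
    have h3 : Real.exp |t| * Real.exp (-|t|) = 1 := by rw [← Real.exp_add]; simp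
    nlinarith [Real.exp_pos |t|, Real.exp_pos (-|t|), abs_nonneg t]
  · have h1 : Real.exp a ≤ Real.exp |t| := Real.exp_le_exp.2 h.2
    linarith

lemma hT (t : ℝ) : WC volume volume (fun σ => σ - t) (tw t) where
  mT := measurable_id.sub_const t
  mw := tw_meas t
  bd := ⟨_, (Real.exp_pos |t|).le, LeC_trans (tw_le t)⟩

/-- transport on `L¹(ℝ)` -/
noncomputable def Uy (t : ℝ) : Y1 →L[ℂ] Y1 := wc (hT t)

lemma Uy_zero : Uy 0 = 1 := by
  ext1 G
  apply Lp.ext
  refine (wc_ae (hT 0) G).trans ?_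
  refine Eventually.of_forall fun σ => ?_
  simp [tw]

lemma Uy_add (s t : ℝ) : Uy (s + t) = Uy s * Uy t := by
  ext1 G
  apply Lp.ext
  refine (wc_ae (hT (s + t)) G).trans ?_
  refine EventuallyEq.symm ?_
  refine (wc_ae (hT s) (Uy t G)).trans ?_
  refine ((hT s).ae (wc_ae (hT t) G)).trans ?_
  refine Eventually.of_forall fun σ => ?_
  simp only
  rw [← mul_assoc, ← Complex.ofReal_mul, sub_sub]
  congr 2
  unfold tw
  rw [← Real.exp_add, sub_sub]
  congr 1
  ring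

lemma Uy_bd (t : ℝ) : ‖Uy t‖ ≤ Real.exp |t| :=
  wc_norm (hT t) (Real.exp_pos |t|).le (LeC_trans (tw_le t))

lemma Uy_bd' {t : ℝ} (ht : 0 ≤ t) : ‖Uy t‖ ≤ Real.exp 1 * (1 + t) :=
  wc_norm (hT t) (by positivity) (LeC_trans (tw_le' ht))

lemma hD (t : ℝ) : WC volume volume (fun σ => σ - t) (fun σ => tw t σ - 1) where
  mT := measurable_id.sub_const t
  mw := (tw_meas t).sub_const 1
  bd := ⟨_, by linarith [Real.one_le_exp (abs_nonneg t)], LeC_trans (tw_sub t)⟩

lemma tr_tendsto (G : Y1) :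
    Tendsto (fun t : ℝ => (DomAddAct.mk (-t) +ᵥ G : Y1)) (𝓝 0) (𝓝 G) := by
  haveI : Fact ((1 : ℝ≥0∞) ≠ ∞) := ⟨ENNReal.one_ne_top⟩
  have h1 : Continuous (fun t : ℝ => (DomAddAct.mk (-t) +ᵥ G : Y1)) :=
    (DomAddAct.continuous_mk.comp continuous_neg).vadd continuous_const
  have := h1.tendsto 0
  simpa using this

lemma tr_ae (G : Y1) (t : ℝ) :
    (DomAddAct.mk (-t) +ᵥ G : Y1) =ᵐ[volume] fun σ => G (σ - t) := by
  have := DomAddAct.vadd_Lp_ae_eq (DomAddAct.mk (-t)) G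
  refine this.trans (Eventually.of_forall fun σ => ?_)
  simp only [Function.comp_apply, vadd_eq_add]
  congr 1
  simp
  ring

lemma Uy_tendsto (G : Y1) : Tendsto (fun t : ℝ => Uy t G) (𝓝 0) (𝓝 G) := by
  have h1 := tr_tendsto G
  have h2 : Tendsto (fun t : ℝ => wc (hD t) G) (𝓝 0) (𝓝 0) := by
    have h3 : Tendsto (fun t : ℝ => (Real.exp |t| - 1) * ‖G‖) (𝓝 0) (𝓝 0) := by
      have : Continuous (fun t : ℝ => (Real.exp |t| - 1) * ‖G‖) := by fun_prop
      simpa using this.tendsto 0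
    refine squeeze_zero_norm (fun t => ?_) h3
    exact ((wc (hD t)).le_opNorm G).trans (mul_le_mul_of_nonneg_right
      (wc_norm (hD t) (by linarith [Real.one_le_exp (abs_nonneg t)]) (LeC_trans (tw_sub t)))
      (norm_nonneg _))
  have h4 := h2.add h1
  rw [zero_add] at h4
  refine h4.congr fun t => ?_
  apply Lp.ext
  refine (Lp.coeFn_add _ _).trans ?_
  refine EventuallyEq.symm ?_
  refine (wc_ae (hT t) G).trans ?_
  filter_upwards [wc_ae (hD t) G, tr_ae G t] with σ e1 e2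
  rw [Pi.add_apply, e1, e2]
  push_cast
  ring

lemma grpY : Grp Uy where
  zero := Uy_zero
  add := Uy_add
  bd := Uy_bd
  cont := by
    intro G
    rw [continuous_iff_continuousAt]
    intro t₀
    have h1 : Tendsto (fun t : ℝ => Uy (t - t₀) G) (𝓝 t₀) (𝓝 G) := by
      have h2 : Tendsto (fun t : ℝ => t - t₀) (𝓝 t₀) (𝓝 0) :=
        (continuous_sub_right t₀).tendsto' t₀ 0 (sub_self _)
      exact (Uy_tendsto G).comp h2
    have h3 := ((Uy t₀).continuous.tendsto G).comp h1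
    refine h3.congr fun t => ?_
    simp only [Function.comp_apply]
    have := Uy_add t₀ (t - t₀)
    rw [add_sub_cancel] at this
    rw [this]; rfl

/-- transport on `X₁` -/
noncomputable def Ux (t : ℝ) : X1 →L[ℂ] X1 := Psi.comp ((Uy t).comp Phi)

lemma Ux_apply (t : ℝ) (f : X1) : Ux t f = Psi (Uy t (Phi f)) := rfl

lemma Ux_norm (t : ℝ) : ‖Ux t‖ ≤ ‖Uy t‖ := by
  calc ‖Ux t‖ ≤ ‖Psi‖ * (‖Uy t‖ * ‖Phi‖) :=
        (ContinuousLinearMap.opNorm_comp_le _ _).trans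
          (mul_le_mul_of_nonneg_left (ContinuousLinearMap.opNorm_comp_le _ _) (norm_nonneg _))
    _ ≤ 1 * (‖Uy t‖ * 1) := by
        gcongr
        · exact Psi_norm
        · exact Phi_norm
    _ = ‖Uy t‖ := by ring

lemma grpX : Grp Ux where
  zero := by
    ext1 f
    rw [Ux_apply, Uy_zero]
    exact Psi_Phi f
  add := by
    intro s t
    ext1 f
    rw [Ux_apply, Uy_add]
    change Psi (Uy s (Uy t (Phi f))) = Ux s (Ux t f)
    rw [Ux_apply s, Ux_apply t, Phi_Psi]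
  bd := fun t => (Ux_norm t).trans (Uy_bd t)
  cont := fun f => Psi.continuous.comp (grpY.cont (Phi f))

lemma Ux_bd' {t : ℝ} (ht : 0 ≤ t) : ‖Ux t‖ ≤ Real.exp 1 * (1 + t) :=
  (Ux_norm t).trans (Uy_bd' ht)

/-- the explicit formula -/
lemma Ux_ae (t : ℝ) (f : X1) : ∀ᵐ y ∂mu1, Ux t f y =
    ((Real.exp (-(AA (ss y) - AA (ss y - t))) * (rr (pp (ss y - t)) / rr y) : ℝ) : ℂ) *
      f (pp (ss y - t)) := by
  have h1 := wc_ae hPsi (Uy t (Phi f))
  have h2 := hPsi.ae (wc_ae (hT t) (Phi f))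
  have hST : WC mu1 volume (fun y => ss y - t) (fun y => wPsi y * tw t (ss y)) := by
    refine ⟨ss_meas.sub_const t, wPsi_meas.mul ((tw_meas t).comp ss_meas), ?_⟩
    refine ⟨Real.exp |t|, (Real.exp_pos _).le, ?_⟩
    intro g hg
    have h3 := hPsiC (fun σ => ENNReal.ofReal |tw t σ| * g (σ - t))
      (((tw_meas t).abs.ennreal_ofReal).mul (hg.comp (measurable_id.sub_const t)))
    have h4 := LeC_trans (t := t) (tw_le t) g hg
    rw [ENNReal.ofReal_one, one_mul] at h3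
    refine le_trans (le_of_eq ?_) (h3.trans h4)
    apply lintegral_congr
    intro y
    rw [abs_mul, ENNReal.ofReal_mul (abs_nonneg _), mul_assoc]
  have h3 := hST.ae (wc_ae hPhi f)
  filter_upwards [h1, h2, h3, ae_mu1] with y e1 e2 e3 hy
  have e0 : Ux t f y = (wPsi y : ℂ) * (Uy t (Phi f)) (ss y) := e1
  rw [e0]
  have e2' : (wPsi y : ℂ) * (Uy t (Phi f)) (ss y) =
    (wPsi y : ℂ) * ((tw t (ss y) : ℂ) * (Phi f) (ss y - t)) := e2
  rw [e2', ← mul_assoc, ← Complex.ofReal_mul]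
  have e3' : ((wPsi y * tw t (ss y) : ℝ) : ℂ) * (Phi f) (ss y - t) =
    ((wPsi y * tw t (ss y) : ℝ) : ℂ) * ((wPhi (ss y - t) : ℂ) * f (pp (ss y - t))) := e3
  rw [e3', ← mul_assoc, ← Complex.ofReal_mul]
  congr 2
  have hp := pp_pos (ss y - t)
  have e4 : tw t (ss y) = Real.exp (-(AA (ss y) - AA (ss y - t))) * (y / pp (ss y - t)) := by
    unfold tw
    rw [LL_eq, LL_eq]
    have e5 : y / pp (ss y - t) = Real.exp (qq (ss y) - qq (ss y - t)) := by
      rw [Real.exp_sub, exp_qq, exp_qq, pp_ss hy]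
    rw [e5, ← Real.exp_add]
    congr 1; ring
  rw [e4, wPsi, wPhi]
  have h5 := (rr_pos hy).ne'
  have h6 := hp.ne'
  have h7 := hy.ne'
  field_simp

end Pool.Agent.V11111.GF
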